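import Pool.Agent.H91.EHA.SwK1

/-!
# EQ PiAp: Siegel-Walfisz for the primes in subintervals of `(P, 2P]`

`psi_ap` (`H91/EHA/SwK1.lean`, exponent `C + B + 3`, `x = 2P`, `log(2P) ≥ e1 log X`) for `r`, `c` and for `r = 1`: `|ψ(z; r, c) - z/φ(r)| ≤ 2P/(log 2P)^k` for `z ≤ 2P`, hence
`|ψ(z; r, c) - ψ(z)/φ(r)|` is small for all `P ≤ z ≤ 2P`; Abel summation with the decreasing weight `1/log n` on `(u, v]` (`VkPr_abel` in `H53/MID/VkPr.lean`, private: copy);
the proper prime powers in `(P, 2P]`: at most `√(2P) log(2P)/log 2` numbers, weight `Λ/log ≤ 1` (see `VkPr.lean`).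
-/

set_option autoImplicit false

namespace Pool.Agent.H31.EQ

open Finset

open Pool.Agent.H91.EHA (Lam psiA psi_ap) in
/-- Abel summation with a decreasing weight -/
private theorem PiAp_abel (a : ℕ → ℝ) (w : ℕ → ℝ) (P Q : ℕ) (hPQ : P + 1 ≤ Q) {M : ℝ}
    (hw : ∀ n, P + 1 ≤ n → n < Q → w (n + 1) ≤ w n) (hw0 : 0 ≤ w Q)
    (hS : ∀ z, P ≤ z → z ≤ Q → |∑ n ∈ Icc 1 z, a n| ≤ M) :
    |∑ n ∈ Ioc P Q, w n * a n| ≤ 2 * M * w (P + 1) := by
  have hT : ∀ z, P ≤ z → z ≤ Q → |∑ n ∈ Ioc P z, a n| ≤ 2 * M := by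
    intro z hz hz'
    have h1 : ∑ n ∈ Icc 1 z, a n = ∑ n ∈ Icc 1 P, a n + ∑ n ∈ Ioc P z, a n := by
      have e1 : ∀ k : ℕ, Icc 1 k = Ioc 0 k := fun k => by
        ext x
        simp only [mem_Icc, mem_Ioc]
        omega
      rw [e1, e1, Finset.sum_Ioc_consecutive _ (Nat.zero_le _) hz]
    have h2 : ∑ n ∈ Ioc P z, a n = ∑ n ∈ Icc 1 z, a n - ∑ n ∈ Icc 1 P, a n := by
      rw [h1]
      ring
    rw [h2]
    have h3 := hS z hz hz'
    have h4 := hS P le_rfl (by omega)
    exact (abs_sub _ _).trans (by linarith)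
  have hM : 0 ≤ 2 * M := (abs_nonneg _).trans (hT P le_rfl (by omega))
  have key : ∀ q, P + 1 ≤ q → q ≤ Q →
      |∑ n ∈ Ioc P q, w n * a n - w q * ∑ n ∈ Ioc P q, a n| ≤
        2 * M * (w (P + 1) - w q) := by
    intro q hq
    induction q, hq using Nat.le_induction with
    | base =>
      intro _
      rw [Nat.Ioc_succ_singleton, Finset.sum_singleton, Finset.sum_singleton, sub_self, abs_zero,
        sub_self, mul_zero]
    | succ q hq ih =>
      intro hqQ
      have h1 := ih (by omega)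
      have e1 : Ioc P (q + 1) = insert (q + 1) (Ioc P q) := by
        ext x
        simp only [mem_Ioc, mem_insert]
        omega
      have e2 : q + 1 ∉ Ioc P q := by simp
      have h2 : ∑ n ∈ Ioc P (q + 1), w n * a n - w (q + 1) * ∑ n ∈ Ioc P (q + 1), a n =
          (∑ n ∈ Ioc P q, w n * a n - w q * ∑ n ∈ Ioc P q, a n) +
          (w q - w (q + 1)) * ∑ n ∈ Ioc P q, a n := by
        rw [e1, Finset.sum_insert e2, Finset.sum_insert e2]
        ring
      rw [h2]
      have h3 : 0 ≤ w q - w (q + 1) := sub_nonneg.mpr (hw q hq (by omega))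
      have h4 : |(w q - w (q + 1)) * ∑ n ∈ Ioc P q, a n| ≤
          (w q - w (q + 1)) * (2 * M) := by
        rw [abs_mul, abs_of_nonneg h3]
        exact mul_le_mul_of_nonneg_left (hT q (by omega) (by omega)) h3
      exact (abs_add_le _ _).trans (by linarith)
  have h1 := key Q hPQ le_rfl
  have h2 := hT Q (by omega) le_rfl
  have h3 : |w Q * ∑ n ∈ Ioc P Q, a n| ≤ w Q * (2 * M) := by
    rw [abs_mul, abs_of_nonneg hw0]
    exact mul_le_mul_of_nonneg_left h2 hw0
  have h4 : |∑ n ∈ Ioc P Q, w n * a n| ≤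
      |∑ n ∈ Ioc P Q, w n * a n - w Q * ∑ n ∈ Ioc P Q, a n| +
      |w Q * ∑ n ∈ Ioc P Q, a n| := by
    have h5 := abs_add_le (∑ n ∈ Ioc P Q, w n * a n - w Q * ∑ n ∈ Ioc P Q, a n)
      (w Q * ∑ n ∈ Ioc P Q, a n)
    rwa [sub_add_cancel] at h5
  linarith

open Pool.Agent.H91.EHA (Lam psiA psi_ap) in
/-- from von Mangoldt sums to prime counts -/
private theorem PiAp_primes (P u v r c : ℕ) (hu3 : 3 ≤ u) (huv : u < v) (hr : 1 ≤ r)
    (hv : v ≤ 2 * P) (hP : 1 ≤ P) (M : ℝ)
    (hS : ∀ z, u ≤ z → z ≤ v → |psiA z r c - psiA z 1 0 / (r.totient : ℝ)| ≤ M) :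
    |(((Ioc u v).filter (fun p => p.Prime ∧ p % r = c % r)).card : ℝ)
      - (((Ioc u v).filter (fun p => p.Prime)).card : ℝ) / (r.totient : ℝ)| ≤
      2 * M + 2 * Real.sqrt (2 * P) * Real.log (2 * P) := by
  classical
  have hφ : (1 : ℝ) ≤ r.totient := by
    exact_mod_cast Nat.totient_pos.mpr hr
  have hφ0 : (0 : ℝ) < r.totient := by linarith
  have hinv0 : 0 ≤ 1 / (r.totient : ℝ) := by positivity
  have hinv1 : 1 / (r.totient : ℝ) ≤ 1 := by
    rw [div_le_one hφ0]
    exact hφ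
  set g : ℕ → ℝ := fun n => (if n % r = c % r then (1 : ℝ) else 0) - 1 / (r.totient : ℝ) with hg
  have hg1 : ∀ n, |g n| ≤ 1 := by
    intro n
    simp only [hg]
    split_ifs
    · rw [abs_of_nonneg (by linarith)]
      linarith
    · rw [zero_sub, abs_neg, abs_of_nonneg hinv0]
      exact hinv1
  set w : ℕ → ℝ := fun n => 1 / Real.log n with hw
  have hlog1 : ∀ n : ℕ, u + 1 ≤ n → 1 ≤ Real.log n := by
    intro n hn
    have h1 : Real.exp 1 ≤ (n : ℝ) := by
      have h2 : (3 : ℝ) ≤ n := by exact_mod_cast (by omega : 3 ≤ n)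
      linarith [Real.exp_one_lt_d9]
    have h3 := Real.log_le_log (Real.exp_pos 1) h1
    rwa [Real.log_exp] at h3
  have hsum : ∀ z, ∑ n ∈ Icc 1 z, Lam n * g n = psiA z r c - psiA z 1 0 / (r.totient : ℝ) := by
    intro z
    unfold psiA
    rw [Finset.sum_filter, Finset.sum_filter, Finset.sum_div, ← Finset.sum_sub_distrib]
    apply Finset.sum_congr rfl
    intro n _
    rw [if_pos (Nat.modEq_one)]
    simp only [hg]
    by_cases h : n % r = c % r
    · rw [if_pos h, if_pos (show n ≡ c [MOD r] from h)]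
      ring
    · rw [if_neg h, if_neg (show ¬ n ≡ c [MOD r] from h)]
      ring
  have hM : 0 ≤ M := (abs_nonneg _).trans (hS u le_rfl huv.le)
  have hA := PiAp_abel (fun n => Lam n * g n) w u v (by omega) (M := M)
    (fun n hn _ => by
      simp only [hw]
      apply one_div_le_one_div_of_le
      · linarith [hlog1 n hn]
      · apply Real.log_le_log
        · exact_mod_cast (by omega : 0 < n)
        · exact_mod_cast Nat.le_succ n)
    (by
      simp only [hw]
      have := hlog1 v (by omega)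
      positivity)
    (fun z hz hz' => by
      rw [hsum]
      exact hS z hz hz')
  have hwP : w (u + 1) ≤ 1 := by
    simp only [hw]
    rw [div_le_one (by linarith [hlog1 (u + 1) le_rfl])]
    exact hlog1 (u + 1) le_rfl
  have hA2 : |∑ n ∈ Ioc u v, w n * (Lam n * g n)| ≤ 2 * M := by
    refine hA.trans ?_
    have := mul_le_mul_of_nonneg_left hwP (show 0 ≤ 2 * M by linarith)
    linarith
  have hcard : (((Ioc u v).filter (fun p => p.Prime ∧ p % r = c % r)).card : ℝ)
      - (((Ioc u v).filter (fun p => p.Prime)).card : ℝ) / (r.totient : ℝ) =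
      ∑ p ∈ (Ioc u v).filter (fun p => p.Prime), g p := by
    simp only [hg]
    rw [Finset.sum_sub_distrib, Finset.sum_const, nsmul_eq_mul, ← Finset.sum_filter,
      Finset.filter_filter, Finset.sum_const, nsmul_eq_mul, mul_one]
    ring
  have hsplit : ∑ n ∈ Ioc u v, w n * (Lam n * g n) =
      ∑ p ∈ (Ioc u v).filter (fun p => p.Prime), g p +
      ∑ n ∈ (Ioc u v).filter (fun n => ¬ n.Prime), w n * (Lam n * g n) := by
    rw [← Finset.sum_filter_add_sum_filter_not (Ioc u v) Nat.Prime]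
    congr 1
    apply Finset.sum_congr rfl
    intro p hp
    rw [Finset.mem_filter, mem_Ioc] at hp
    simp only [hw]
    have h2 : Lam p = Real.log p := by
      unfold Lam
      exact ArithmeticFunction.vonMangoldt_apply_prime hp.2
    have h3 := hlog1 p (by omega)
    have h4 : Real.log p ≠ 0 := by linarith
    rw [h2, ← mul_assoc, one_div, inv_mul_cancel₀ h4, one_mul]
  have hnp : |∑ n ∈ (Ioc u v).filter (fun n => ¬ n.Prime), w n * (Lam n * g n)| ≤
      2 * Real.sqrt (2 * P) * Real.log (2 * P) := by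
    have h0 : ∀ n : ℕ, 0 ≤ Lam n := fun n => by
      unfold Lam
      exact ArithmeticFunction.vonMangoldt_nonneg
    have h1 : |∑ n ∈ (Ioc u v).filter (fun n => ¬ n.Prime), w n * (Lam n * g n)| ≤
        ∑ n ∈ (Ioc u v).filter (fun n => ¬ n.Prime), Lam n := by
      refine (Finset.abs_sum_le_sum_abs _ _).trans ?_
      apply Finset.sum_le_sum
      intro n hn
      rw [Finset.mem_filter, mem_Ioc] at hn
      have h2 := hlog1 n (by omega)
      simp only [hw]
      have h4 : 1 / Real.log n ≤ 1 := by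
        rw [div_le_one (by linarith)]
        exact h2
      have h5 : 0 ≤ 1 / Real.log n := by positivity
      rw [abs_mul, abs_mul, abs_of_nonneg (h0 n), abs_of_nonneg h5]
      calc 1 / Real.log n * (Lam n * |g n|) ≤ 1 * (Lam n * 1) := by
            apply mul_le_mul h4 _ (mul_nonneg (h0 n) (abs_nonneg _)) zero_le_one
            exact mul_le_mul_of_nonneg_left (hg1 n) (h0 n)
        _ = Lam n := by ring
    have h2 : ∑ n ∈ (Ioc u v).filter (fun n => ¬ n.Prime), Lam n ≤
        Chebyshev.psi ((2 * P : ℕ) : ℝ) - Chebyshev.theta ((2 * P : ℕ) : ℝ) := by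
      rw [Chebyshev.psi_sub_theta_eq_sum_not_prime, Nat.floor_natCast]
      apply Finset.sum_le_sum_of_subset_of_nonneg
      · apply Finset.filter_subset_filter
        intro x hx
        rw [mem_Ioc] at hx ⊢
        omega
      · intro n _ _
        exact h0 n
    have h3 := Chebyshev.psi_sub_theta_le (x := ((2 * P : ℕ) : ℝ)) (by exact_mod_cast (by omega : 1 ≤ 2 * P))
    push_cast at h2 h3
    linarith
  rw [hcard]
  have hfin : ∑ p ∈ (Ioc u v).filter (fun p => p.Prime), g p =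
      ∑ n ∈ Ioc u v, w n * (Lam n * g n) -
      ∑ n ∈ (Ioc u v).filter (fun n => ¬ n.Prime), w n * (Lam n * g n) := by
    rw [hsplit]
    ring
  rw [hfin]
  exact (abs_sub _ _).trans (by linarith)

theorem pi_ap (B C : ℕ) (e1 : ℝ) (he1 : 0 < e1) : ∃ X0 : ℕ, ∀ X : ℕ, X0 ≤ X → ∀ P r c u v : ℕ, (X : ℝ) ^ e1 ≤ P → P ≤ X → 1 ≤ r →
    (r : ℝ) ≤ Real.log X ^ B → Nat.Coprime c r → P ≤ u → v ≤ 2 * P →
    |(((Ioc u v).filter (fun p => p.Prime ∧ p % r = c % r)).card : ℝ)
      - (((Ioc u v).filter (fun p => p.Prime)).card : ℝ) / (r.totient : ℝ)| ≤ P / Real.log X ^ C := by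
  obtain ⟨x0, hV⟩ := Pool.Agent.H91.EHA.psi_ap (B + 1) (C + 1)
  have hlog : Filter.Tendsto (fun N : ℕ => Real.log N) Filter.atTop Filter.atTop :=
    Real.tendsto_log_atTop.comp tendsto_natCast_atTop_atTop
  have hsmall : ∀ᶠ N : ℕ in Filter.atTop, 12 * Real.log N ^ (C + 1) ≤ (N : ℝ) ^ (e1 / 2) := by
    have h1 := isLittleO_log_rpow_rpow_atTop (s := e1 / 2) ((C + 1 : ℕ) : ℝ) (by linarith)
    have h2 := (h1.comp_tendsto tendsto_natCast_atTop_atTop).def (c := 1 / 12) (by norm_num)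
    filter_upwards [h2, hlog.eventually_ge_atTop 1] with N hN hN1
    simp only [Function.comp_apply] at hN
    rw [Real.rpow_natCast, Real.norm_eq_abs, Real.norm_eq_abs, abs_of_nonneg (by positivity),
      abs_of_nonneg (by positivity)] at hN
    linarith
  have hbig : ∀ᶠ N : ℕ in Filter.atTop, max (3 : ℝ) (x0 : ℝ) ≤ (N : ℝ) ^ e1 :=
    ((tendsto_rpow_atTop he1).comp tendsto_natCast_atTop_atTop).eventually_ge_atTop _
  obtain ⟨N0, hN0⟩ := Filter.eventually_atTop.mp (hsmall.and (hbig.and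
    ((hlog.eventually_ge_atTop 4).and ((hlog.eventually_ge_atTop (16 / e1 ^ (C + 1))).and
    ((hlog.eventually_ge_atTop (1 / e1 ^ (B + 1))).and
    (Filter.eventually_ge_atTop 2))))))
  refine ⟨N0, ?_⟩
  intro X hX P r c u v hP1 hP2 hr1 hr2 hcr hu hv
  obtain ⟨h12, h3, hL4, hL16, hLB, hX2⟩ := hN0 X hX
  set L : ℝ := Real.log X with hL
  have hXr : (2 : ℝ) ≤ X := by exact_mod_cast hX2
  have hX0' : (0 : ℝ) < X := by linarith
  have hPr3 : (3 : ℝ) ≤ P := (le_max_left _ _).trans (h3.trans hP1)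
  have hPx0 : (x0 : ℝ) ≤ P := (le_max_right _ _).trans (h3.trans hP1)
  have hP3 : 3 ≤ P := by exact_mod_cast hPr3
  have hPx : x0 ≤ P := by exact_mod_cast hPx0
  have hPr0 : (0 : ℝ) < P := by linarith
  have hL0 : 0 < L := by linarith
  have hLK0 : 0 < L ^ C := by positivity
  rcases Nat.lt_or_ge u v with huv | huv
  swap
  · rw [Finset.Ioc_eq_empty_of_le huv]
    simp only [Finset.filter_empty, Finset.card_empty, Nat.cast_zero, zero_div, sub_zero, abs_zero]
    positivity
  have hφ : (1 : ℝ) ≤ r.totient := by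
    exact_mod_cast Nat.totient_pos.mpr hr1
  have hφ0 : (0 : ℝ) < r.totient := by linarith
  -- the logarithm of `2P`
  have hlogP : e1 * L ≤ Real.log ((2 * P : ℕ) : ℝ) := by
    have h1 : Real.log ((X : ℝ) ^ e1) ≤ Real.log ((2 * P : ℕ) : ℝ) := by
      apply Real.log_le_log (by positivity)
      push_cast
      linarith
    rwa [Real.log_rpow hX0'] at h1
  have he1L : 0 < e1 * L := by positivity
  have hlogP0 : 0 < Real.log ((2 * P : ℕ) : ℝ) := by linarith
  have hrB : (r : ℝ) ≤ Real.log ((2 * P : ℕ) : ℝ) ^ (B + 1) := by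
    refine hr2.trans ?_
    calc L ^ B = 1 * L ^ B := by ring
      _ ≤ (e1 ^ (B + 1) * L) * L ^ B := by
          apply mul_le_mul_of_nonneg_right _ (by positivity)
          rw [div_le_iff₀ (by positivity)] at hLB
          linarith
      _ = (e1 * L) ^ (B + 1) := by ring
      _ ≤ _ := pow_le_pow_left₀ he1L.le hlogP _
  have h1B : ((1 : ℕ) : ℝ) ≤ Real.log ((2 * P : ℕ) : ℝ) ^ (B + 1) := by
    have : ((1 : ℕ) : ℝ) ≤ (r : ℝ) := by exact_mod_cast hr1
    linarith
  have hV2 := hV (2 * P) (by omega)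
  have hS : ∀ z, u ≤ z → z ≤ v →
      |Pool.Agent.H91.EHA.psiA z r c - Pool.Agent.H91.EHA.psiA z 1 0 / (r.totient : ℝ)| ≤
        2 * (2 * P / Real.log ((2 * P : ℕ) : ℝ) ^ (C + 1)) := by
    intro z _ hz'
    have h1 := hV2 z (by omega) r hr1 hrB c hcr
    have h2 := hV2 z (by omega) 1 le_rfl h1B 0 (Nat.coprime_one_right 0)
    rw [Nat.totient_one, Nat.cast_one, div_one] at h2
    have h4 : |Pool.Agent.H91.EHA.psiA z 1 0 / (r.totient : ℝ) - z / (r.totient : ℝ)| ≤
        ((2 * P : ℕ) : ℝ) / Real.log ((2 * P : ℕ) : ℝ) ^ (C + 1) := by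
      rw [← sub_div, abs_div, abs_of_pos hφ0, div_le_iff₀ hφ0]
      refine h2.trans ?_
      have h5 : 0 ≤ ((2 * P : ℕ) : ℝ) / Real.log ((2 * P : ℕ) : ℝ) ^ (C + 1) := by positivity
      nlinarith
    have h5 : Pool.Agent.H91.EHA.psiA z r c - Pool.Agent.H91.EHA.psiA z 1 0 / (r.totient : ℝ) =
        (Pool.Agent.H91.EHA.psiA z r c - z / (r.totient : ℝ)) -
        (Pool.Agent.H91.EHA.psiA z 1 0 / (r.totient : ℝ) - z / (r.totient : ℝ)) := by ring
    rw [h5]
    refine (abs_sub _ _).trans ?_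
    have h6 : ((2 * P : ℕ) : ℝ) = 2 * P := by push_cast; ring
    rw [h6] at h1 h4 ⊢
    linarith
  have hmain := PiAp_primes P u v r c (by omega) huv hr1 hv (by omega) _ hS
  refine hmain.trans ?_
  have e1' : 2 * (2 * (2 * P / Real.log ((2 * P : ℕ) : ℝ) ^ (C + 1))) ≤ P / L ^ C / 2 := by
    have h2 : 16 * L ^ C ≤ Real.log ((2 * P : ℕ) : ℝ) ^ (C + 1) := by
      calc 16 * L ^ C ≤ (e1 ^ (C + 1) * L) * L ^ C := by
            apply mul_le_mul_of_nonneg_right _ (by positivity)
            rw [div_le_iff₀ (by positivity)] at hL16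
            linarith
        _ = (e1 * L) ^ (C + 1) := by ring
        _ ≤ _ := pow_le_pow_left₀ he1L.le hlogP _
    have h5 : 2 * (2 * (2 * P / Real.log ((2 * P : ℕ) : ℝ) ^ (C + 1))) ≤ 8 * P / (16 * L ^ C) := by
      rw [← mul_div_assoc, ← mul_div_assoc]
      have h6 : 2 * (2 * (2 * (P : ℝ))) = 8 * P := by ring
      rw [h6]
      exact div_le_div_of_nonneg_left (by positivity) (by positivity) h2
    refine h5.trans (le_of_eq ?_)
    field_simp
    norm_num
  have e2' : 2 * Real.sqrt (2 * P) * Real.log (2 * P) ≤ P / L ^ C / 2 := by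
    have hlog2P : Real.log (2 * P) ≤ 2 * L := by
      have h1 : (2 : ℝ) * P ≤ (X : ℝ) ^ 2 := by
        have : (P : ℝ) ≤ X := by exact_mod_cast hP2
        nlinarith
      have h2 := Real.log_le_log (by positivity) h1
      rw [Real.log_pow] at h2
      push_cast at h2
      exact h2
    have hsq : Real.sqrt (2 * P) ≤ 3 / 2 * Real.sqrt P := by
      rw [Real.sqrt_le_left (by positivity), mul_pow, Real.sq_sqrt hPr0.le]
      linarith
    have hsP : (X : ℝ) ^ (e1 / 2) ≤ Real.sqrt P := by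
      apply Real.le_sqrt_of_sq_le
      rw [← Real.rpow_natCast, ← Real.rpow_mul hX0'.le]
      have : e1 / 2 * ((2 : ℕ) : ℝ) = e1 := by push_cast; ring
      rw [this]
      exact hP1
    have hsP0 : 0 ≤ Real.sqrt P := Real.sqrt_nonneg _
    have hlog0 : 0 ≤ Real.log (2 * P) := Real.log_nonneg (by linarith)
    have h1 : 2 * Real.sqrt (2 * P) * Real.log (2 * P) ≤ 2 * (3 / 2 * Real.sqrt P) * (2 * L) := by
      apply mul_le_mul (by linarith) hlog2P hlog0 (by positivity)
    have h2 : 12 * L ^ (C + 1) ≤ Real.sqrt P := h12.trans hsP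
    rw [div_div, le_div_iff₀ (by positivity)]
    calc 2 * Real.sqrt (2 * P) * Real.log (2 * P) * (L ^ C * 2)
        ≤ 2 * (3 / 2 * Real.sqrt P) * (2 * L) * (L ^ C * 2) :=
          mul_le_mul_of_nonneg_right h1 (by positivity)
      _ = (12 * L ^ (C + 1)) * Real.sqrt P := by ring
      _ ≤ Real.sqrt P * Real.sqrt P := mul_le_mul_of_nonneg_right h2 hsP0
      _ = P := Real.mul_self_sqrt hPr0.le
  linarith

end Pool.Agent.H31.EQ
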