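import Pool.Agent.H31.EQ.Defs
import Pool.Agent.H31.EQ.PiAp

/-!
# EQ LongC: long sums in residue classes

`∑_{x < n ≤ y, n ≡ c (d)} Fp b P n = ∑_{1 ≤ k ≤ 4X/P} b(k) #{p ∈ pb P : x < p k ≤ y, p k ≡ c (d)}` (`n = p k`; `p > P`, `n ≤ 4X`); for fixed `k` the `p ∈ pb P` with `x < p k ≤ y` are the primes of
`Ioc (max P (x/k)) (min (2P) (y/k))`.  If `b k ≠ 0`, `(k, d) = 1`.  If `(c, d) = 1`: `p k ≡ c` iff `p ≡ c'` for a class `c'` coprime to `d` (`c' = c k⁻¹`): `pi_ap` (exponent `A + 3`):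
`#{..} = #{p}/φ(d) + O(P/L^(A+3))`; if `(c, d) > 1` there is no such `p` (`p > P > d` is coprime to `d`, `k` too).  Sum over `k ≤ 4X/P`: error `≤ 4X/L^(A+3) ≤ X/L^A`.
-/

set_option autoImplicit false

namespace Pool.Agent.H31.EQ

open Finset
open Pool.Agent.H91.PK (ee)
open Pool.Agent.H35.W (pb)
open Pool.Agent.H53.MID (Fp)

private lemma LongC_swp (b : ℕ → ℝ) (P K : ℕ) (S : Finset ℕ) (hS : ∀ n ∈ S, 1 ≤ n)
    (hK : ∀ n ∈ S, ∀ p ∈ pb P, n / p ≤ K) :
    ∑ n ∈ S, Fp b P n = ∑ k ∈ Icc 1 K, b k * (((pb P).filter (fun p => p * k ∈ S)).card : ℝ) := by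
  unfold Fp
  simp_rw [Finset.sum_filter]
  rw [Finset.sum_comm]
  have key : ∀ p ∈ pb P, ∑ n ∈ S, (if p ∣ n then b (n / p) else 0)
      = ∑ k ∈ Icc 1 K, if p * k ∈ S then b k else 0 := by
    intro p hp
    have pp : 0 < p := by
      have := (Finset.mem_filter.mp hp).2
      exact this.pos
    rw [← Finset.sum_filter, ← Finset.sum_filter]
    refine Finset.sum_nbij' (fun n => n / p) (fun k => p * k) ?_ ?_ ?_ ?_ ?_
    · intro n hn
      obtain ⟨h1, h2⟩ := Finset.mem_filter.mp hn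
      refine Finset.mem_filter.mpr ⟨Finset.mem_Icc.mpr ⟨?_, hK n h1 p hp⟩, ?_⟩
      · exact Nat.div_pos (Nat.le_of_dvd (hS n h1) h2) pp
      · simpa [Nat.mul_div_cancel' h2] using h1
    · intro k hk
      obtain ⟨h1, h2⟩ := Finset.mem_filter.mp hk
      exact Finset.mem_filter.mpr ⟨h2, Dvd.intro k rfl⟩
    · intro n hn
      obtain ⟨h1, h2⟩ := Finset.mem_filter.mp hn
      exact Nat.mul_div_cancel' h2
    · intro k hk
      exact Nat.mul_div_cancel_left k pp
    · intro n hn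
      rfl
  rw [Finset.sum_congr rfl key, Finset.sum_comm]
  refine Finset.sum_congr rfl (fun k hk => ?_)
  rw [← Finset.sum_filter, Finset.sum_const, nsmul_eq_mul, mul_comm]

private lemma LongC_inv (k d c : ℕ) (hd : 1 ≤ d) (hk : Nat.Coprime k d) (hc : Nat.Coprime c d) :
    ∃ c' : ℕ, Nat.Coprime c' d ∧ ∀ p : ℕ, (p * k) % d = c % d ↔ p % d = c' % d := by
  haveI : NeZero d := ⟨by omega⟩
  set u : (ZMod d)ˣ := ZMod.unitOfCoprime k hk with hu
  have hval : (u : ZMod d) = (k : ZMod d) := ZMod.coe_unitOfCoprime k hk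
  set w : (ZMod d)ˣ := ZMod.unitOfCoprime c hc with hw
  have hwval : (w : ZMod d) = (c : ZMod d) := ZMod.coe_unitOfCoprime c hc
  refine ⟨((w * u⁻¹ : (ZMod d)ˣ) : ZMod d).val, ZMod.val_coe_unit_coprime _, ?_⟩
  intro p
  have e1 : ((p * k) % d = c % d) ↔ ((p * k : ℕ) : ZMod d) = (c : ZMod d) :=
    (ZMod.natCast_eq_natCast_iff _ _ _).symm
  have e2 : (p % d = ((w * u⁻¹ : (ZMod d)ˣ) : ZMod d).val % d) ↔
      (p : ZMod d) = ((((w * u⁻¹ : (ZMod d)ˣ) : ZMod d).val : ℕ) : ZMod d) :=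
    (ZMod.natCast_eq_natCast_iff _ _ _).symm
  rw [e1, e2, ZMod.natCast_zmod_val]
  push_cast
  rw [← hval, ← hwval]
  constructor
  · intro h
    rw [← h]
    simp [mul_assoc]
  · intro h
    rw [h]
    simp [mul_assoc]

private lemma LongC_log (B : ℕ) (e1 : ℝ) (he1 : 0 < e1) :
    ∃ X0 : ℕ, ∀ X : ℕ, X0 ≤ X → Real.log X ^ B < (X : ℝ) ^ e1 := by
  have h := isLittleO_log_rpow_rpow_atTop (B : ℝ) he1
  have h2 := h.bound (show (0 : ℝ) < 1 / 2 by norm_num)
  have h3 := h2.and (Filter.eventually_ge_atTop (2 : ℝ))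
  obtain ⟨x0, hx0⟩ := Filter.eventually_atTop.mp h3
  refine ⟨⌈x0⌉₊, fun X hX => ?_⟩
  obtain ⟨h4, h5⟩ := hx0 X (le_trans (Nat.le_ceil x0) (by exact_mod_cast hX))
  have h6 : (0 : ℝ) ≤ Real.log X := Real.log_nonneg (by linarith)
  have h7 : (0 : ℝ) < (X : ℝ) ^ e1 := Real.rpow_pos_of_pos (by linarith) _
  rw [Real.rpow_natCast, Real.norm_of_nonneg (pow_nonneg h6 B), Real.norm_of_nonneg h7.le] at h4
  linarith

theorem long_c (A B : ℕ) (e1 : ℝ) (he1 : 0 < e1) : ∃ X0 : ℕ, ∀ X : ℕ, X0 ≤ X → ∀ (P d c x y : ℕ) (b : ℕ → ℝ), (X : ℝ) ^ e1 ≤ P → P ≤ X → 1 ≤ d →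
    (d : ℝ) ≤ Real.log X ^ B → y ≤ 4 * X → (∀ k, |b k| ≤ 1) → (∀ k, b k ≠ 0 → Nat.Coprime k d) →
    |(∑ n ∈ (Ioc x y).filter (fun n => n % d = c % d), Fp b P n)
      - (if Nat.Coprime c d then (∑ n ∈ Ioc x y, Fp b P n) / d.totient else 0)| ≤ X / Real.log X ^ A := by
  obtain ⟨X1, hX1⟩ := pi_ap B (A + 3) e1 he1
  obtain ⟨X2, hX2⟩ := LongC_log B e1 he1
  refine ⟨max (max X1 X2) 8, fun X hX P d c x y b hP1 hP2 hd hdL hy hb hbd => ?_⟩
  have hXa : X1 ≤ X := le_trans (le_trans (le_max_left _ _) (le_max_left _ _)) hX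
  have hXb : X2 ≤ X := le_trans (le_trans (le_max_right _ _) (le_max_left _ _)) hX
  have hXc : 8 ≤ X := le_trans (le_max_right _ _) hX
  have hXr : (8 : ℝ) ≤ X := by exact_mod_cast hXc
  have hL2 : (2 : ℝ) ≤ Real.log X := by
    have h1 : Real.log 8 ≤ Real.log X := Real.log_le_log (by norm_num) hXr
    have h2 : Real.log 8 = 3 * Real.log 2 := by
      rw [show (8 : ℝ) = 2 ^ 3 by norm_num, Real.log_pow]; norm_num
    have h3 := Real.log_two_gt_d9
    linarith
  have hdP : (d : ℝ) < P := lt_of_le_of_lt hdL (lt_of_lt_of_le (hX2 X hXb) hP1)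
  have hdPn : d < P := by exact_mod_cast hdP
  have hP0 : 0 < P := by omega
  have hPr : (0 : ℝ) < P := by exact_mod_cast hP0
  set K : ℕ := 4 * X / P with hK
  have hKP : (K : ℝ) * P ≤ 4 * X := by
    have : K * P ≤ 4 * X := Nat.div_mul_le_self _ _
    exact_mod_cast this
  have hsub1 : ∀ n ∈ Ioc x y, 1 ≤ n := fun n hn => by
    have := (Finset.mem_Ioc.mp hn).1
    omega
  have hsubK : ∀ n ∈ Ioc x y, ∀ p ∈ pb P, n / p ≤ K := by
    intro n hn p hp
    have h1 := (Finset.mem_Ioc.mp hn).2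
    have h2 := (Finset.mem_Ioc.mp (Finset.mem_filter.mp hp).1).1
    exact le_trans (Nat.div_le_div_right (le_trans h1 hy)) (Nat.div_le_div_left h2.le hP0)
  have hs1 := LongC_swp b P K (Ioc x y) hsub1 hsubK
  have hs2 := LongC_swp b P K ((Ioc x y).filter (fun n => n % d = c % d))
    (fun n hn => hsub1 n (Finset.mem_filter.mp hn).1)
    (fun n hn p hp => hsubK n (Finset.mem_filter.mp hn).1 p hp)
  have hLp : (0 : ℝ) < Real.log X ^ (A + 3) := by positivity
  -- the error for a single `k`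
  have herr : ∀ k ∈ Icc 1 K,
      |b k * (((pb P).filter (fun p => p * k ∈ (Ioc x y).filter (fun n => n % d = c % d))).card : ℝ)
        - (if Nat.Coprime c d then b k * (((pb P).filter (fun p => p * k ∈ Ioc x y)).card : ℝ) / d.totient else 0)|
      ≤ P / Real.log X ^ (A + 3) := by
    intro k hk
    have hk1 : 1 ≤ k := (Finset.mem_Icc.mp hk).1
    have hpos : (0 : ℝ) ≤ P / Real.log X ^ (A + 3) := by positivity
    by_cases hbk : b k = 0
    · simp [hbk, hpos]
    have hkd := hbd k hbk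
    by_cases hcd : Nat.Coprime c d
    · obtain ⟨c', hc', hiff⟩ := LongC_inv k d c hd hkd hcd
      rw [if_pos hcd]
      have hu := hX1 X hXa P d c' (max P (x / k)) (min (2 * P) (y / k)) hP1 hP2 hd hdL hc'
        (le_max_left _ _) (min_le_left _ _)
      have hmem : ∀ p : ℕ, (p ∈ Ioc (max P (x / k)) (min (2 * P) (y / k))) ↔
          (p ∈ Ioc P (2 * P) ∧ p * k ∈ Ioc x y) := by
        intro p
        simp only [Finset.mem_Ioc, max_lt_iff, le_min_iff]
        rw [Nat.div_lt_iff_lt_mul hk1, Nat.le_div_iff_mul_le hk1]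
        tauto
      have hA1 : (pb P).filter (fun p => p * k ∈ Ioc x y)
          = (Ioc (max P (x / k)) (min (2 * P) (y / k))).filter (fun p => p.Prime) := by
        ext p
        simp only [pb, Finset.mem_filter]
        rw [hmem p]
        tauto
      have hA2 : (pb P).filter (fun p => p * k ∈ (Ioc x y).filter (fun n => n % d = c % d))
          = (Ioc (max P (x / k)) (min (2 * P) (y / k))).filter (fun p => p.Prime ∧ p % d = c' % d) := by
        ext p
        simp only [pb, Finset.mem_filter]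
        rw [hmem p, hiff p]
        tauto
      rw [hA1, hA2, mul_div_assoc, ← mul_sub, abs_mul]
      calc |b k| * _ ≤ 1 * (P / Real.log X ^ (A + 3)) :=
            mul_le_mul (hb k) hu (abs_nonneg _) (by norm_num)
        _ = _ := one_mul _
    · rw [if_neg hcd]
      have hA3 : (pb P).filter (fun p => p * k ∈ (Ioc x y).filter (fun n => n % d = c % d)) = ∅ := by
        rw [Finset.filter_eq_empty_iff]
        intro p hp hmem
        have h1 := (Finset.mem_filter.mp hmem).2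
        have hpp := (Finset.mem_filter.mp hp).2
        have hpP := (Finset.mem_Ioc.mp (Finset.mem_filter.mp hp).1).1
        have hpd : Nat.Coprime p d := by
          rw [Nat.Prime.coprime_iff_not_dvd hpp]
          intro hdv
          have := Nat.le_of_dvd (by omega) hdv
          omega
        have hpk : Nat.Coprime (p * k) d := Nat.Coprime.mul_left hpd hkd
        apply hcd
        have h2 : Nat.gcd (p * k) d = Nat.gcd c d := Nat.ModEq.gcd_eq h1
        unfold Nat.Coprime at hpk ⊢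
        rw [← h2]; exact hpk
      rw [hA3]
      simpa using hpos
  have hcomb : (∑ n ∈ (Ioc x y).filter (fun n => n % d = c % d), Fp b P n)
      - (if Nat.Coprime c d then (∑ n ∈ Ioc x y, Fp b P n) / d.totient else 0)
      = ∑ k ∈ Icc 1 K, (b k * (((pb P).filter (fun p => p * k ∈ (Ioc x y).filter (fun n => n % d = c % d))).card : ℝ)
        - (if Nat.Coprime c d then b k * (((pb P).filter (fun p => p * k ∈ Ioc x y)).card : ℝ) / d.totient else 0)) := by
    rw [Finset.sum_sub_distrib, hs2]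
    congr 1
    by_cases hcd : Nat.Coprime c d
    · simp only [if_pos hcd]
      rw [hs1, Finset.sum_div]
    · simp [if_neg hcd]
  rw [hcomb]
  calc |∑ k ∈ Icc 1 K, _| ≤ ∑ k ∈ Icc 1 K, P / Real.log X ^ (A + 3) :=
        le_trans (Finset.abs_sum_le_sum_abs _ _) (Finset.sum_le_sum herr)
    _ = K * P / Real.log X ^ (A + 3) := by
        rw [Finset.sum_const, nsmul_eq_mul, Nat.card_Icc]
        simp only [Nat.add_sub_cancel]
        ring
    _ ≤ 4 * X / Real.log X ^ (A + 3) := by gcongr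
    _ ≤ X / Real.log X ^ A := by
        have hLA : (0 : ℝ) < Real.log X ^ A := by positivity
        have hL3 : (4 : ℝ) ≤ Real.log X ^ 3 := by
          calc (4 : ℝ) ≤ 2 ^ 3 := by norm_num
            _ ≤ Real.log X ^ 3 := by gcongr
        rw [div_le_div_iff₀ hLp hLA, pow_add]
        have h1 : (0 : ℝ) ≤ X * Real.log X ^ A := by positivity
        nlinarith [mul_le_mul_of_nonneg_left hL3 h1]

end Pool.Agent.H31.EQ
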