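import Pool.Agent.H31.EQ.Defs
import Pool.Agent.H53.MID.Fac
import Pool.Agent.H53.MID.Mvt
import Pool.Agent.H80.LV.Dual
import Pool.Agent.H88.PSI.Ker

/-!
# EQ DualK: mean squares of the cofactor polynomial `Kl b K1 K2 a t = ∑_{K1 < k ≤ K2} b(k) ee(-k a) ee(-t log k)`

`dual_k`: `Pool.Agent.H80.LV.dual_ineq` (coefficients `conj (b k ee(-k a))` on `(K1, K2]`, `0` otherwise: the norm of `Kl` is the norm of the
conjugate sum `∑ conj(..) ee(t log k)`; `K = K2`, `Y = T`) with `G = C0 L (6 L K2 + vol(B) √(2T))`: `Pool.Agent.H88.PSI.ker` (constant `C0`, `M = K2`) gives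
`|∑_{n ≤ K2} ee((t-s) log n)| ≤ C0 L (K2/(1+|t-s|) + √|t-s|)`, `|t-s| ≤ 2T`, and
`∫_{|s| ≤ T} ds/(1+|t-s|) ≤ 2 log(1+2T) ≤ 6 L` (as in `H88/PSI/Hux.lean` and `H80/LV/GInt.lean`, `GInt_log`).  `∑ |b k|² ≤ K2`; `C = 6 C0`.
`mv_k`: `Pool.Agent.H53.MID.mvt` (`X = K2`, `τ = 0`, `K2 = 0` is trivial).
-/

set_option autoImplicit false

namespace Pool.Agent.H31.EQ

open Finset MeasureTheory
open Pool.Agent.H91.PK (ee)
open Pool.Agent.H35.W (pb)
open Pool.Agent.H53.MID (Fp Pl Kl)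

private theorem DualK_log (t Y : ℝ) (hY : 0 ≤ Y) :
    ∫ s in (t - Y)..(t + Y), 1 / (1 + |t - s|) = 2 * Real.log (1 + Y) := by
  have hcont : Continuous (fun s : ℝ => 1 / (1 + |t - s|)) := by
    refine continuous_const.div (by fun_prop) fun s => ?_
    positivity
  have h1 : ∫ s in (t - Y)..t, 1 / (1 + |t - s|) = Real.log (1 + Y) := by
    have e1 : ∫ s in (t - Y)..t, 1 / (1 + |t - s|) =
        ∫ s in (t - Y)..t, (fun u : ℝ => 1 / u) (1 + t - s) := by
      refine intervalIntegral.integral_congr fun s hs => ?_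
      rw [Set.uIcc_of_le (by linarith), Set.mem_Icc] at hs
      simp only
      rw [abs_of_nonneg (by linarith)]
      congr 1
      ring
    rw [e1, intervalIntegral.integral_comp_sub_left, integral_one_div_of_pos (by linarith)
      (by linarith)]
    congr 1
    rw [show (1 : ℝ) + t - t = 1 by ring, div_one]
    ring
  have h2 : ∫ s in t..(t + Y), 1 / (1 + |t - s|) = Real.log (1 + Y) := by
    have e1 : ∫ s in t..(t + Y), 1 / (1 + |t - s|) =
        ∫ s in t..(t + Y), (fun u : ℝ => 1 / u) (s - (t - 1)) := by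
      refine intervalIntegral.integral_congr fun s hs => ?_
      rw [Set.uIcc_of_le (by linarith), Set.mem_Icc] at hs
      simp only
      rw [abs_of_nonpos (by linarith)]
      congr 1
      ring
    rw [e1, intervalIntegral.integral_comp_sub_right, integral_one_div_of_pos (by linarith)
      (by linarith)]
    congr 1
    rw [show t - (t - 1) = 1 by ring, div_one]
    ring
  rw [← intervalIntegral.integral_add_adjacent_intervals (b := t)
    (hcont.intervalIntegrable _ _) (hcont.intervalIntegrable _ _), h1, h2]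
  ring

/-- the kernel integral -/
private theorem DualK_ker {C0 : ℝ} (hC0 : 1 ≤ C0) (X K2 : ℕ) (T : ℝ) (B : Set ℝ) (hX : 3 ≤ X) (hT : 1 ≤ T)
    (hTX : T ≤ X) (hB : MeasurableSet B) (hBT : B ⊆ Set.Icc (-T) T)
    (hker : ∀ u : ℝ, ‖∑ n ∈ Icc 1 K2, ee (u * Real.log n)‖ ≤
      C0 * Real.log X * (K2 / (1 + |u|) + Real.sqrt |u|)) :
    ∀ t ∈ B, ∫ s in B, ‖∑ n ∈ Icc 1 K2, ee ((t - s) * Real.log n)‖ ≤
      6 * C0 * Real.log X ^ 2 * (K2 + volume.real B * Real.sqrt T) := by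
  intro t ht
  have hXr : (3 : ℝ) ≤ X := by exact_mod_cast hX
  have hL1 : 1 ≤ Real.log X := by
    rw [Real.le_log_iff_exp_le (by linarith)]
    have := Real.exp_one_lt_d9
    linarith
  set L := Real.log X with hL
  have hK0 : (0 : ℝ) ≤ K2 := Nat.cast_nonneg _
  have hv0 : 0 ≤ volume.real B := measureReal_nonneg
  have hsT : 0 ≤ Real.sqrt T := Real.sqrt_nonneg T
  have hdiff : ∀ s ∈ B, |t - s| ≤ 2 * T := by
    intro s hs
    have hs1 := hBT hs
    have ht1 := hBT ht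
    rw [Set.mem_Icc] at hs1 ht1
    exact abs_le.mpr ⟨by linarith [hs1.1, hs1.2, ht1.1, ht1.2], by linarith [hs1.1, hs1.2, ht1.1, ht1.2]⟩
  -- pointwise bound
  have hpt : ∀ s ∈ B, ‖∑ n ∈ Icc 1 K2, ee ((t - s) * Real.log n)‖ ≤
      C0 * L * K2 * (1 / (1 + |t - s|)) + C0 * L * (2 * Real.sqrt T) := by
    intro s hs
    refine (hker (t - s)).trans ?_
    have h1 : Real.sqrt |t - s| ≤ 2 * Real.sqrt T := by
      rw [Real.sqrt_le_left (by positivity), mul_pow, Real.sq_sqrt (by linarith)]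
      have := hdiff s hs
      linarith
    calc C0 * L * (K2 / (1 + |t - s|) + Real.sqrt |t - s|) ≤
          C0 * L * (K2 / (1 + |t - s|) + 2 * Real.sqrt T) :=
          mul_le_mul_of_nonneg_left (by linarith) (by positivity)
      _ = _ := by ring
  have hcee : Continuous (fun s : ℝ => ‖∑ n ∈ Icc 1 K2, ee ((t - s) * Real.log n)‖) := by
    unfold ee
    fun_prop
  have hcg0 : Continuous (fun s : ℝ => 1 / (1 + |t - s|)) := by
    refine continuous_const.div (by fun_prop) fun s => ?_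
    positivity
  have hcg : Continuous (fun s : ℝ => C0 * L * K2 * (1 / (1 + |t - s|))) :=
    continuous_const.mul hcg0
  have hi1 : IntegrableOn (fun s : ℝ => ‖∑ n ∈ Icc 1 K2, ee ((t - s) * Real.log n)‖) B :=
    (hcee.continuousOn.integrableOn_Icc).mono_set hBT
  have hi2 : IntegrableOn (fun s : ℝ => C0 * L * K2 * (1 / (1 + |t - s|))) B :=
    (hcg.continuousOn.integrableOn_Icc).mono_set hBT
  have hi3 : IntegrableOn (fun _ : ℝ => C0 * L * (2 * Real.sqrt T)) B :=
    (continuous_const.continuousOn.integrableOn_Icc).mono_set hBT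
  refine (setIntegral_mono_on hi1 (hi2.add hi3) hB hpt).trans ?_
  have e1 : ∫ s in B, (C0 * L * K2 * (1 / (1 + |t - s|)) + C0 * L * (2 * Real.sqrt T)) =
      C0 * L * K2 * (∫ s in B, 1 / (1 + |t - s|)) + volume.real B * (C0 * L * (2 * Real.sqrt T)) := by
    rw [integral_add hi2 hi3, integral_const_mul, setIntegral_const, smul_eq_mul]
  have e2 : ∫ s in B, 1 / (1 + |t - s|) ≤ 2 * Real.log (1 + 2 * T) := by
    rw [← DualK_log t (2 * T) (by linarith), intervalIntegral.integral_of_le (by linarith),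
      ← integral_Icc_eq_integral_Ioc]
    refine setIntegral_mono_set (hcg0.continuousOn.integrableOn_Icc)
      (Filter.Eventually.of_forall fun s => ?_) (HasSubset.Subset.eventuallyLE ?_)
    · simp only [Pi.zero_apply]
      positivity
    · intro s hs
      have h1 := abs_le.mp (hdiff s hs)
      rw [Set.mem_Icc]
      constructor <;> linarith [h1.1, h1.2]
  have e3 : Real.log (1 + 2 * T) ≤ 3 * L := by
    have h1 : 1 + 2 * T ≤ (X : ℝ) ^ 3 := by
      have h2 : (X : ℝ) ^ 3 = X * X * X := by ring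
      rw [h2]
      nlinarith [mul_le_mul hXr hXr (by norm_num) (by linarith)]
    calc Real.log (1 + 2 * T) ≤ Real.log ((X : ℝ) ^ 3) := Real.log_le_log (by linarith) h1
      _ = 3 * L := by rw [Real.log_pow, hL]; norm_num
  change ∫ s in B, (C0 * L * K2 * (1 / (1 + |t - s|)) + C0 * L * (2 * Real.sqrt T)) ≤ _
  rw [e1]
  have e5 : C0 * L * K2 * (∫ s in B, 1 / (1 + |t - s|)) ≤ C0 * L * K2 * (2 * (3 * L)) := by
    refine mul_le_mul_of_nonneg_left ?_ (by positivity)
    linarith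
  have e6 : volume.real B * (C0 * L * (2 * Real.sqrt T)) ≤
      6 * C0 * L ^ 2 * (volume.real B * Real.sqrt T) := by
    have h1 : 0 ≤ C0 * L * (volume.real B * Real.sqrt T) := by positivity
    have h2 : C0 * L * (volume.real B * Real.sqrt T) * 1 ≤ C0 * L * (volume.real B * Real.sqrt T) * L :=
      mul_le_mul_of_nonneg_left hL1 h1
    calc volume.real B * (C0 * L * (2 * Real.sqrt T)) =
          2 * (C0 * L * (volume.real B * Real.sqrt T) * 1) := by ring
      _ ≤ 6 * (C0 * L * (volume.real B * Real.sqrt T) * L) := by linarith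
      _ = _ := by ring
  calc C0 * L * K2 * (∫ s in B, 1 / (1 + |t - s|)) + volume.real B * (C0 * L * (2 * Real.sqrt T)) ≤
        C0 * L * K2 * (2 * (3 * L)) + 6 * C0 * L ^ 2 * (volume.real B * Real.sqrt T) :=
        add_le_add e5 e6
    _ = 6 * C0 * L ^ 2 * (K2 + volume.real B * Real.sqrt T) := by ring

/-- sums over `(K1, K2]` as sums over `[1, K2]` -/
private theorem DualK_sum (K1 K2 : ℕ) (f : ℕ → ℂ) :
    ∑ k ∈ Ioc K1 K2, f k = ∑ k ∈ Icc 1 K2, if K1 < k then f k else 0 := by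
  rw [← Finset.sum_filter]
  refine Finset.sum_congr ?_ fun _ _ => rfl
  ext k
  simp only [mem_Ioc, mem_filter, mem_Icc]
  omega

private theorem DualK_coef (K1 K2 : ℕ) (b : ℕ → ℝ) (z : ℕ → ℂ) (hz : ∀ k, ‖z k‖ = 1) (hb : ∀ k, |b k| ≤ 1) :
    ∑ k ∈ Icc 1 K2, ‖if K1 < k then (b k : ℂ) * z k else 0‖ ^ 2 ≤ K2 := by
  have h1 : ∀ k ∈ Icc 1 K2, ‖if K1 < k then (b k : ℂ) * z k else 0‖ ^ 2 ≤ 1 := by
    intro k _
    split_ifs
    · rw [norm_mul, hz, mul_one, Complex.norm_real, Real.norm_eq_abs]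
      exact pow_le_one₀ (abs_nonneg _) (hb k)
    · rw [norm_zero]
      norm_num
  refine (Finset.sum_le_sum h1).trans ?_
  rw [Finset.sum_const, Nat.card_Icc, nsmul_eq_mul, mul_one, Nat.add_sub_cancel]

theorem dual_k : ∃ C : ℝ, 1 ≤ C ∧ ∀ (X K1 K2 : ℕ) (b : ℕ → ℝ) (a T : ℝ) (B : Set ℝ), 3 ≤ X → K2 ≤ X → 1 ≤ T → T ≤ X →
    MeasurableSet B → B ⊆ Set.Icc (-T) T → (∀ k, |b k| ≤ 1) →
    ∫ t in B, ‖Kl b K1 K2 a t‖ ^ 2 ≤ C * Real.log X ^ 2 * (K2 + volume.real B * Real.sqrt T) * K2 := by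
  obtain ⟨C0, hC0, hker⟩ := Pool.Agent.H88.PSI.ker
  refine ⟨6 * C0, by linarith, ?_⟩
  intro X K1 K2 b a T B hX hK2 hT hTX hB hBT hb
  have hv0 : 0 ≤ volume.real B := measureReal_nonneg
  have hG0 : 0 ≤ 6 * C0 * Real.log X ^ 2 * (K2 + volume.real B * Real.sqrt T) := by positivity
  have h1 := Pool.Agent.H80.LV.dual_ineq B T hB hBT K2
    (fun k => if K1 < k then (b k : ℂ) * ee (k * a) else 0)
    (6 * C0 * Real.log X ^ 2 * (K2 + volume.real B * Real.sqrt T)) hG0
    (DualK_ker hC0 X K2 T B hX hT hTX hB hBT fun u => hker X K2 u hX hK2)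
  have h2 := DualK_coef K1 K2 b (fun k => ee (k * a)) (fun k => Pool.Agent.H91.PK.LSa_norm_ee _) hb
  have h3 : ∀ t : ℝ, ‖Kl b K1 K2 a t‖ =
      ‖∑ k ∈ Icc 1 K2, (if K1 < k then (b k : ℂ) * ee (k * a) else 0) * ee (t * Real.log k)‖ := by
    intro t
    rw [← Complex.norm_conj (Kl b K1 K2 a t)]
    congr 1
    unfold Kl
    rw [map_sum, DualK_sum]
    refine Finset.sum_congr rfl fun k _ => ?_
    split_ifs
    · rw [map_mul, map_mul, Complex.conj_ofReal, Pool.Agent.H91.PK.LSa_conj_ee,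
        Pool.Agent.H91.PK.LSa_conj_ee, neg_neg, neg_neg]
    · rw [zero_mul]
  simp only [h3]
  exact h1.trans (mul_le_mul_of_nonneg_left h2 hG0)

theorem mv_k (K1 K2 : ℕ) (b : ℕ → ℝ) (a T : ℝ) (hT : 0 ≤ T) (hb : ∀ k, |b k| ≤ 1) :
    ∫ t in Set.Icc (-T) T, ‖Kl b K1 K2 a t‖ ^ 2 ≤ (2 * T + 2 * K2 * (1 + Real.log K2)) * K2 := by
  rcases Nat.eq_zero_or_pos K2 with h0 | h0
  · have h1 : ∀ t : ℝ, Kl b K1 K2 a t = 0 := by
      intro t
      unfold Kl
      rw [h0, Finset.Ioc_eq_empty (by omega), Finset.sum_empty]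
    simp only [h1, norm_zero, ne_eq, OfNat.ofNat_ne_zero, not_false_eq_true, zero_pow,
      integral_zero]
    rw [h0, Nat.cast_zero]
    linarith
  · have h1 := Pool.Agent.H53.MID.mvt
      (fun k => if K1 < k then (b k : ℂ) * ee (-(k * a)) else 0) K2 T 0 h0 hT
    have h2 := DualK_coef K1 K2 b (fun k => ee (-(k * a))) (fun k => Pool.Agent.H91.PK.LSa_norm_ee _) hb
    have h3 : ∀ t : ℝ, Kl b K1 K2 a t =
        ∑ k ∈ Icc 1 K2, (if K1 < k then (b k : ℂ) * ee (-(k * a)) else 0) *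
          ee (-((0 + t) * Real.log k)) := by
      intro t
      unfold Kl
      rw [DualK_sum]
      refine Finset.sum_congr rfl fun k _ => ?_
      split_ifs
      · rw [zero_add]
      · rw [zero_mul]
    simp only [h3]
    refine h1.trans (mul_le_mul_of_nonneg_left h2 ?_)
    have h4 : 0 ≤ Real.log K2 := Real.log_natCast_nonneg _
    positivity

end Pool.Agent.H31.EQ
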