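import Pool.Agent.H31.EQ.DSq
import Pool.Agent.H88.PSI.Chi

/-!
# EQ ClsD: from additive twists to residue classes

`cf b P d c n = (1/d) ∑_{a<d} ee(a c/d) tf b P (a/d) n` (`∑_{a<d} ee(a (c-n)/d) = d [n ≡ c (d)]`, orthogonality; e.g. `VkClass`/`HSq`/`Tls` use it too: geometric sum), `D` is linear (`d_sum`, `d_smul`),
Cauchy-Schwarz: `‖D(cf)‖² ≤ (1/d) ∑_{a<d} ‖D(tf b P (a/d))‖²`; `d_sq` for every `a`.
-/

set_option autoImplicit false

namespace Pool.Agent.H31.EQ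

open Finset MeasureTheory
open Pool.Agent.H91.PK (ee)
open Pool.Agent.H35.W (pb)
open Pool.Agent.H53.MID (Fp VKp)
open Pool.Agent.H88.PSI (D W)

private theorem ClsD_norm_ee (t : ℝ) : ‖ee t‖ = 1 := by
  unfold ee
  rw [show (2 * (Real.pi : ℂ) * (t : ℂ) * Complex.I) = ((2 * Real.pi * t : ℝ) : ℂ) * Complex.I by
    push_cast; ring]
  exact Complex.norm_exp_ofReal_mul_I _

private theorem ClsD_pow (a c n d : ℕ) :
    ee ((a : ℝ) * c / d) * ee (-((n : ℝ) * ((a : ℝ) / d))) = ee (((c : ℝ) - n) / d) ^ a := by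
  unfold ee
  rw [← Complex.exp_add, ← Complex.exp_nat_mul]
  congr 1
  push_cast
  ring

private theorem ClsD_one {c n d : ℕ} (hd : 1 ≤ d) :
    ee (((c : ℝ) - n) / d) = 1 ↔ n % d = c % d := by
  have hd' : (d : ℂ) ≠ 0 := by
    have : d ≠ 0 := by omega
    exact_mod_cast this
  unfold ee
  rw [Complex.exp_eq_one_iff]
  have h2 : (2 * (Real.pi : ℂ) * Complex.I) ≠ 0 := Complex.two_pi_I_ne_zero
  constructor
  · rintro ⟨k, hk⟩
    have h3 : (2 * (Real.pi : ℂ) * Complex.I) * (((c : ℂ) - n) / d) = (2 * (Real.pi : ℂ) * Complex.I) * k := by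
      have := hk
      push_cast at this
      linear_combination this
    have h4 := mul_left_cancel₀ h2 h3
    have h5 : ((c : ℂ) - n) = k * d := by
      rw [div_eq_iff hd'] at h4
      exact h4
    have h6 : ((c : ℤ) - n) = k * d := by
      exact_mod_cast h5
    have h7 : n ≡ c [MOD d] := by
      rw [Nat.modEq_iff_dvd]
      exact ⟨k, by rw [h6]; ring⟩
    exact h7
  · intro h
    have h7 : n ≡ c [MOD d] := h
    rw [Nat.modEq_iff_dvd] at h7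
    obtain ⟨k, hk⟩ := h7
    refine ⟨k, ?_⟩
    have h5 : ((c : ℂ) - n) = d * k := by exact_mod_cast hk
    push_cast
    rw [h5]
    field_simp

private theorem ClsD_end {c n d : ℕ} (hd : 1 ≤ d) : ee (((c : ℝ) - n) / d) ^ d = 1 := by
  have hd' : (d : ℂ) ≠ 0 := by
    have : d ≠ 0 := by omega
    exact_mod_cast this
  unfold ee
  rw [← Complex.exp_nat_mul, Complex.exp_eq_one_iff]
  refine ⟨(c : ℤ) - n, ?_⟩
  push_cast
  field_simp

private theorem ClsD_orth (c n d : ℕ) (hd : 1 ≤ d) :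
    ∑ a ∈ range d, ee ((a : ℝ) * c / d) * ee (-((n : ℝ) * ((a : ℝ) / d)))
      = if n % d = c % d then (d : ℂ) else 0 := by
  simp only [ClsD_pow]
  split_ifs with h
  · rw [(ClsD_one hd).2 h]
    simp
  · have h1 : ee (((c : ℝ) - n) / d) ≠ 1 := fun h2 => h ((ClsD_one hd).1 h2)
    rw [geom_sum_eq h1, ClsD_end hd]
    simp

/-- the class is a mean of the twists -/
theorem cf_eq (b : ℕ → ℝ) (P d c n : ℕ) (hd : 1 ≤ d) :
    cf b P d c n = 1 / (d : ℂ) * ∑ a ∈ range d, ee ((a : ℝ) * c / d) * tf b P ((a : ℝ) / d) n := by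
  have hd' : (d : ℂ) ≠ 0 := by
    have : d ≠ 0 := by omega
    exact_mod_cast this
  have h1 : ∑ a ∈ range d, ee ((a : ℝ) * c / d) * tf b P ((a : ℝ) / d) n
      = ((Fp b P n : ℝ) : ℂ) * (if n % d = c % d then (d : ℂ) else 0) := by
    rw [← ClsD_orth c n d hd, Finset.mul_sum]
    refine Finset.sum_congr rfl fun a _ => ?_
    unfold tf
    ring
  rw [h1]
  unfold cf
  split_ifs
  · field_simp
  · simp

private theorem ClsD_norm (b : ℕ → ℝ) (P d c H H1 x : ℕ) (hd : 1 ≤ d) :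
    ‖D (cf b P d c) H H1 x‖ ^ 2 ≤ 1 / (d : ℝ) * ∑ a ∈ range d, ‖D (tf b P ((a : ℝ) / d)) H H1 x‖ ^ 2 := by
  have hd' : (0 : ℝ) < d := by exact_mod_cast hd
  have h1 : cf b P d c = fun n => ∑ a ∈ range d,
      (fun a : ℕ => fun n : ℕ => (1 / (d : ℂ) * ee ((a : ℝ) * c / d)) * tf b P ((a : ℝ) / d) n) a n := by
    funext n
    rw [cf_eq b P d c n hd, Finset.mul_sum]
    refine Finset.sum_congr rfl fun a _ => ?_
    ring
  have h2 : D (cf b P d c) H H1 x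
      = ∑ a ∈ range d, (1 / (d : ℂ) * ee ((a : ℝ) * c / d)) * D (tf b P ((a : ℝ) / d)) H H1 x := by
    rw [h1, Pool.Agent.H88.PSI.d_sum]
    refine Finset.sum_congr rfl fun a _ => ?_
    exact Pool.Agent.H88.PSI.d_smul _ _ H H1 x
  have h3 : ‖D (cf b P d c) H H1 x‖ ≤ 1 / (d : ℝ) * ∑ a ∈ range d, ‖D (tf b P ((a : ℝ) / d)) H H1 x‖ := by
    rw [h2, Finset.mul_sum]
    refine (norm_sum_le _ _).trans (Finset.sum_le_sum fun a _ => ?_)
    rw [norm_mul, norm_mul, ClsD_norm_ee, mul_one, norm_div, norm_one, Complex.norm_natCast]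
  have h4 : (∑ a ∈ range d, ‖D (tf b P ((a : ℝ) / d)) H H1 x‖) ^ 2
      ≤ d * ∑ a ∈ range d, ‖D (tf b P ((a : ℝ) / d)) H H1 x‖ ^ 2 := by
    have := sq_sum_le_card_mul_sum_sq (s := range d) (f := fun a : ℕ => ‖D (tf b P ((a : ℝ) / d)) H H1 x‖)
    rwa [Finset.card_range] at this
  calc ‖D (cf b P d c) H H1 x‖ ^ 2
      ≤ (1 / (d : ℝ) * ∑ a ∈ range d, ‖D (tf b P ((a : ℝ) / d)) H H1 x‖) ^ 2 :=
        pow_le_pow_left₀ (norm_nonneg _) h3 2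
    _ = (1 / (d : ℝ)) ^ 2 * (∑ a ∈ range d, ‖D (tf b P ((a : ℝ) / d)) H H1 x‖) ^ 2 := by ring
    _ ≤ (1 / (d : ℝ)) ^ 2 * (d * ∑ a ∈ range d, ‖D (tf b P ((a : ℝ) / d)) H H1 x‖ ^ 2) :=
        mul_le_mul_of_nonneg_left h4 (by positivity)
    _ = 1 / (d : ℝ) * ∑ a ∈ range d, ‖D (tf b P ((a : ℝ) / d)) H H1 x‖ ^ 2 := by
        field_simp

theorem cls_d (hVK : VKp) (η : ℝ) (hη : 0 < η) (A B : ℕ) : ∃ A0 : ℕ, ∀ A1 : ℕ, A0 ≤ A1 → ∃ X0 : ℕ, ∀ X : ℕ, X0 ≤ X →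
    ∀ (P d c H H1 : ℕ) (b : ℕ → ℝ), (X : ℝ) ^ (1 / 5 + η) ≤ P → (X : ℝ) ^ (1 / 5 + η) ≤ H →
    (P : ℝ) ^ 2 * H ≤ 16 * X → 1 ≤ d → (d : ℝ) ≤ Real.log X ^ B → (∀ k, |b k| ≤ 1) →
    H ≤ H1 → (H1 : ℝ) ≤ X / Real.log X ^ A1 →
    ∑ x ∈ Ico X (2 * X), ‖D (cf b P d c) H H1 x‖ ^ 2 ≤ X / Real.log X ^ A := by
  obtain ⟨A0, h0⟩ := d_sq hVK η hη A B
  refine ⟨A0, fun A1 hA1 => ?_⟩
  obtain ⟨X0, h1⟩ := h0 A1 hA1
  refine ⟨X0, fun X hX P d c H H1 b hP hH hPH hd hdB hb hH1 hH1X => ?_⟩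
  have hd' : (0 : ℝ) < d := by exact_mod_cast hd
  calc ∑ x ∈ Ico X (2 * X), ‖D (cf b P d c) H H1 x‖ ^ 2
      ≤ ∑ x ∈ Ico X (2 * X), 1 / (d : ℝ) * ∑ a ∈ range d, ‖D (tf b P ((a : ℝ) / d)) H H1 x‖ ^ 2 :=
        Finset.sum_le_sum fun x _ => ClsD_norm b P d c H H1 x hd
    _ = 1 / (d : ℝ) * ∑ a ∈ range d, ∑ x ∈ Ico X (2 * X), ‖D (tf b P ((a : ℝ) / d)) H H1 x‖ ^ 2 := by
        rw [← Finset.mul_sum, Finset.sum_comm]
    _ ≤ 1 / (d : ℝ) * ∑ _a ∈ range d, (X : ℝ) / Real.log X ^ A := by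
        refine mul_le_mul_of_nonneg_left (Finset.sum_le_sum fun a _ => ?_) (by positivity)
        exact h1 X hX P d a H H1 b hP hH hPH hd hdB hb hH1 hH1X
    _ = X / Real.log X ^ A := by
        rw [Finset.sum_const, Finset.card_range, nsmul_eq_mul]
        field_simp

end Pool.Agent.H31.EQ
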