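import Pool.Agent.H31.EQ.DpInt
import Pool.Agent.H88.PSI.Conv
import Pool.Agent.H88.PSI.Pars

/-!
# EQ DSq: short average minus long average, mean square

As `box_c` in `H88/PSI/BoxC.lean` (copy and adapt; the private lemmas `BoxC_log`, `BoxC_hd` there).  `f = tf (cut 0 K2 b) P (a/d)`, `K2 = 4X/P` (natural division), `N = 8X`
(`2 P K2 ≤ 8X`).  For `n ≤ 3X`: `tf b P (a/d) n = f n` (`p > P`, `n/p ≤ 3X/P ≤ K2`), so `D` is the same (`x < 2X`, `H ≤ H1 ≤ X`).  `|f n| ≤ #{p ∈ pb P : p ∣ n} ≤ 4` for `1 ≤ n ≤ 8X`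
(five primes `> P` have a product `> P^5 ≥ X^(1+5η) > 8X`), `SS f N ≤ 128 X`.
`K = ⌈L^(A+2)⌉` (`K ≤ H`): `100 SS/K² ≤ X/(4 L^A)`.  `dp_int` with `A' = 2A + 6`, `C4 = 2A + 10` gives `K'`; `T0 = L^K'`, `T = X L^C4/H` (`T ≥ T0`).  `A0 = A + 2K' + 10` (`2 A1 ≥ A + (A+2) + 3K' + 5` is enough).
`conv` and `pars` (`hs = log(1 + H/X_i)`, `hl = log(1 + H1/X_i)`, `X_i = X(1 + i/K)`), `8 X K` times
* `1000 T0³ H1² N/X⁴ SS ≤ 1000 L^(3K' - 2A1) 8 · 128`; * `1000/H² (1/T + N(1+log N)/T²) SS ≤ 1000 · 128 (1/(H L^C4) + 32 L/L^(2 C4))`;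
* `4/X² ∫ ≤ 4/L^A'`.   Each is `≤ 1/(32 L^A K)`.
-/

set_option autoImplicit false

namespace Pool.Agent.H31.EQ

open Finset MeasureTheory
open Pool.Agent.H91.PK (ee)
open Pool.Agent.H35.W (pb)
open Pool.Agent.H53.MID (Fp Pl Kl VKp cut)
open Pool.Agent.H88.PSI (DP D W SS Gw conv pars)

private theorem DSq_log (y : ℝ) (hy : 0 ≤ y) : y - y ^ 2 / 2 ≤ Real.log (1 + y) := by
  have h := Real.le_log_one_add_of_nonneg hy
  refine le_trans ?_ h
  rw [le_div_iff₀ (by linarith)]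
  nlinarith [mul_nonneg hy (sq_nonneg y), sq_nonneg y]

private theorem DSq_hd (X Xi H H1 : ℝ) (hX : 0 < X) (hXi : X ≤ Xi) (hH : 0 < H) (hH1 : H ≤ H1) :
    |Real.log (1 + H / Xi) / H - Real.log (1 + H1 / Xi) / H1| ≤ H1 / X ^ 2 := by
  have hXi0 : 0 < Xi := by linarith
  have hH10 : 0 < H1 := by linarith
  have key : ∀ h : ℝ, 0 < h → h ≤ H1 →
      1 / Xi - H1 / (2 * Xi ^ 2) ≤ Real.log (1 + h / Xi) / h ∧ Real.log (1 + h / Xi) / h ≤ 1 / Xi := by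
    intro h hh hh1
    have h0 : 0 ≤ h / Xi := by positivity
    constructor
    · rw [le_div_iff₀ hh]
      refine le_trans ?_ (DSq_log _ h0)
      have : (1 / Xi - H1 / (2 * Xi ^ 2)) * h ≤ (1 / Xi - h / (2 * Xi ^ 2)) * h := by
        apply mul_le_mul_of_nonneg_right _ hh.le
        have := div_le_div_of_nonneg_right hh1 (by positivity : (0:ℝ) ≤ 2 * Xi ^ 2)
        linarith
      refine this.trans (le_of_eq ?_)
      field_simp
    · rw [div_le_iff₀ hh]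
      have := Real.log_le_sub_one_of_pos (by positivity : 0 < 1 + h / Xi)
      have e1 : 1 / Xi * h = h / Xi := by ring
      rw [e1]; linarith
  obtain ⟨a1, a2⟩ := key H hH hH1
  obtain ⟨b1, b2⟩ := key H1 hH10 le_rfl
  have h3 : H1 / (2 * Xi ^ 2) ≤ H1 / X ^ 2 := by
    apply div_le_div_of_nonneg_left hH10.le (by positivity)
    have : X ^ 2 ≤ Xi ^ 2 := pow_le_pow_left₀ hX.le hXi 2
    nlinarith [sq_nonneg Xi]
  rw [abs_le]
  constructor <;> linarith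

private theorem DSq_cut (b : ℕ → ℝ) (P X n : ℕ) (hP : 1 ≤ P) (h1 : 1 ≤ n) (h2 : n ≤ 3 * X) :
    Fp (cut 0 (4 * X / P) b) P n = Fp b P n := by
  unfold Fp
  refine sum_congr rfl fun p hp => ?_
  rw [mem_filter, pb, mem_filter, mem_Ioc] at hp
  obtain ⟨⟨⟨hp1, _⟩, hp2⟩, hp3⟩ := hp
  unfold cut
  rw [if_pos]
  rw [mem_Ioc]
  constructor
  · exact Nat.div_pos (Nat.le_of_dvd (by omega) hp3) hp2.pos
  · calc n / p ≤ n / P := Nat.div_le_div_left hp1.le (by omega)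
      _ ≤ 4 * X / P := Nat.div_le_div_right (by omega)

private theorem DSq_Deq (b : ℕ → ℝ) (P X H H1 x : ℕ) (α : ℝ) (hP : 1 ≤ P) (hx : x ∈ Ico X (2 * X)) (hH : H ≤ X)
    (hH1 : H1 ≤ X) : D (tf b P α) H H1 x = D (tf (cut 0 (4 * X / P) b) P α) H H1 x := by
  rw [mem_Ico] at hx
  have h1 : ∀ H' : ℕ, H' ≤ X → Pool.Agent.H88.PSI.W (tf b P α) H' x =
      Pool.Agent.H88.PSI.W (tf (cut 0 (4 * X / P) b) P α) H' x := by
    intro H' hH'
    unfold Pool.Agent.H88.PSI.W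
    refine sum_congr rfl fun n hn => ?_
    rw [mem_Ioc] at hn
    unfold tf
    rw [DSq_cut b P X n hP (by omega) (by omega)]
  unfold D
  rw [h1 H hH, h1 H1 hH1]

private theorem DSq_card (P X n : ℕ) (hP : 8 * X < P ^ 5) (h1 : 1 ≤ n) (h2 : n ≤ 8 * X) :
    ((pb P).filter (fun p => p ∣ n)).card ≤ 4 := by
  by_contra hcon
  push Not at hcon
  obtain ⟨S, hS, hSc⟩ := exists_subset_card_eq (show 5 ≤ ((pb P).filter (fun p => p ∣ n)).card by omega)
  have hmem : ∀ p ∈ S, P < p ∧ p.Prime ∧ p ∣ n := by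
    intro p hp
    have := hS hp
    rw [mem_filter, pb, mem_filter, mem_Ioc] at this
    exact ⟨this.1.1.1, this.1.2, this.2⟩
  have h3 : ∏ p ∈ S, p ∣ n := by
    refine Finset.prod_primes_dvd n ?_ ?_
    · intro p hp
      exact (hmem p hp).2.1.prime
    · intro p hp
      exact (hmem p hp).2.2
  have h4 : P ^ 5 ≤ ∏ p ∈ S, p := by
    rw [← hSc]
    exact Finset.pow_card_le_prod S _ P fun p hp => (hmem p hp).1.le
  have h5 := Nat.le_of_dvd (by omega) h3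
  omega

private theorem DSq_ss (b : ℕ → ℝ) (P X : ℕ) (α : ℝ) (hP : 8 * X < P ^ 5) (hb : ∀ k, |b k| ≤ 1) :
    SS (tf (cut 0 (4 * X / P) b) P α) (8 * X) ≤ 128 * X := by
  have h1 : ∀ n ∈ Icc 1 (8 * X), ‖tf (cut 0 (4 * X / P) b) P α n‖ ^ 2 ≤ 16 := by
    intro n hn
    rw [mem_Icc] at hn
    have h2 : ‖tf (cut 0 (4 * X / P) b) P α n‖ ≤ 4 := by
      unfold tf
      rw [norm_mul, Pool.Agent.H91.PK.LSa_norm_ee, mul_one, Complex.norm_real, Real.norm_eq_abs]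
      unfold Fp
      refine (abs_sum_le_sum_abs _ _).trans ?_
      have h3 : ∀ p ∈ (pb P).filter (fun p => p ∣ n), |cut 0 (4 * X / P) b (n / p)| ≤ 1 := by
        intro p _
        unfold cut
        split_ifs
        · exact hb _
        · simp
      refine (sum_le_card_nsmul _ _ 1 h3).trans ?_
      rw [nsmul_eq_mul, mul_one]
      exact_mod_cast DSq_card P X n hP hn.1 hn.2
    have h3 := pow_le_pow_left₀ (norm_nonneg _) h2 2
    linarith
  unfold SS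
  refine (sum_le_card_nsmul _ _ 16 h1).trans ?_
  rw [Nat.card_Icc, nsmul_eq_mul]
  have h4 : 8 * X + 1 - 1 = 8 * X := by omega
  rw [h4]
  push_cast
  linarith

/-- the first error term -/
private theorem DSq_b (X K T0 H1 S L : ℝ) (A K' A1 : ℕ) (hX : 0 < X) (hL : 10 ^ 8 ≤ L)
    (_hK0 : 0 ≤ K) (hK : K ≤ 2 * L ^ (A + 2)) (hT0 : T0 = L ^ K') (hH10 : 0 ≤ H1) (hH1 : H1 ≤ X / L ^ A1)
    (hS0 : 0 ≤ S) (hS : S ≤ 128 * X) (hA : A + 2 + 3 * K' + A + 1 ≤ 2 * A1) :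
    8 * X * K * (1000 * (T0 ^ 3 * H1 ^ 2 * (8 * X) / X ^ 4) * S) ≤ X / (4 * L ^ A) := by
  have hL0 : 0 < L := by linarith
  have hL1 : 1 ≤ L := by linarith
  have h1 : H1 ^ 2 ≤ X ^ 2 / L ^ (2 * A1) := by
    have := pow_le_pow_left₀ hH10 hH1 2
    rw [div_pow, ← pow_mul, mul_comm A1 2] at this
    exact this
  have h2 : T0 ^ 3 = L ^ (3 * K') := by rw [hT0, ← pow_mul, mul_comm]
  have h3 : 8 * X * K * (1000 * (T0 ^ 3 * H1 ^ 2 * (8 * X) / X ^ 4) * S)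
      ≤ 8 * X * (2 * L ^ (A + 2)) * (1000 * (L ^ (3 * K') * (X ^ 2 / L ^ (2 * A1)) * (8 * X) / X ^ 4) *
        (128 * X)) := by
    rw [h2]
    gcongr
  refine h3.trans ?_
  have h4 : 8 * X * (2 * L ^ (A + 2)) * (1000 * (L ^ (3 * K') * (X ^ 2 / L ^ (2 * A1)) * (8 * X) / X ^ 4) *
        (128 * X)) = 16384000 * X * L ^ (A + 2 + 3 * K') / L ^ (2 * A1) := by
    rw [pow_add L (A + 2) (3 * K')]
    field_simp
    ring
  rw [h4]
  have h5 : L ^ (A + 2 + 3 * K' + A + 1) ≤ L ^ (2 * A1) := pow_le_pow_right₀ hL1 hA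
  rw [div_le_div_iff₀ (by positivity) (by positivity)]
  calc 16384000 * X * L ^ (A + 2 + 3 * K') * (4 * L ^ A)
      = 65536000 * (X * (L ^ (A + 2 + 3 * K') * L ^ A)) := by ring
    _ ≤ L * (X * (L ^ (A + 2 + 3 * K') * L ^ A)) :=
        mul_le_mul_of_nonneg_right (by linarith) (by positivity)
    _ = X * L ^ (A + 2 + 3 * K' + A + 1) := by
        rw [pow_succ L (A + 2 + 3 * K' + A), pow_add L (A + 2 + 3 * K') A]; ring
    _ ≤ X * L ^ (2 * A1) := mul_le_mul_of_nonneg_left h5 hX.le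

/-- the second error term -/
private theorem DSq_c (X K H T N S L : ℝ) (A : ℕ) (hX : 1 ≤ X) (hL : 10 ^ 9 ≤ L)
    (_hK0 : 0 ≤ K) (hK : K ≤ 2 * L ^ (A + 2)) (hH : 1 ≤ H) (hHT : H * T = X * L ^ (2 * A + 10)) (hT : 0 < T)
    (hN0 : 0 ≤ N) (hN : N ≤ 24 * L * X) (hS0 : 0 ≤ S) (hS : S ≤ 128 * X) :
    8 * X * K * (1000 * (1 / H ^ 2 * (1 / T + N / T ^ 2)) * S) ≤ X / (4 * L ^ A) := by
  have hX0 : 0 < X := by linarith
  have hL0 : 0 < L := by linarith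
  have hL1 : 1 ≤ L := by linarith
  have hH0 : 0 < H := by linarith
  have e1 : 1 / H ^ 2 * (1 / T) ≤ 1 / (X * L ^ (2 * A + 10)) := by
    rw [one_div_mul_one_div]
    apply div_le_div_of_nonneg_left (by norm_num) (by positivity)
    rw [← hHT]
    have : 0 ≤ (H - 1) * (H * T) := mul_nonneg (by linarith) (by positivity)
    nlinarith
  have e2 : 1 / H ^ 2 * (N / T ^ 2) ≤ 24 * L / (X * L ^ (2 * A + 10)) := by
    rw [div_mul_div_comm, one_mul]
    have h1 : H ^ 2 * T ^ 2 = X ^ 2 * (L ^ (2 * A + 10) * L ^ (2 * A + 10)) := by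
      rw [← mul_pow, hHT]; ring
    rw [h1]
    have h2 : 1 ≤ L ^ (2 * A + 10) := one_le_pow₀ hL1
    calc N / (X ^ 2 * (L ^ (2 * A + 10) * L ^ (2 * A + 10))) ≤ 24 * L * X / (X ^ 2 * (L ^ (2 * A + 10) * 1)) := by
          apply div_le_div₀ (by positivity) hN (by positivity)
          gcongr
      _ = 24 * L / (X * L ^ (2 * A + 10)) := by field_simp
  have e3 : 1 / H ^ 2 * (1 / T + N / T ^ 2) ≤ 25 * L / (X * L ^ (2 * A + 10)) := by
    rw [mul_add]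
    have : 1 / (X * L ^ (2 * A + 10)) ≤ L / (X * L ^ (2 * A + 10)) := by gcongr
    have h2 : 25 * L / (X * L ^ (2 * A + 10)) = 24 * L / (X * L ^ (2 * A + 10)) + L / (X * L ^ (2 * A + 10)) := by
      ring
    linarith
  have hW0 : 0 ≤ 1 / H ^ 2 * (1 / T + N / T ^ 2) := by positivity
  have h3 : 8 * X * K * (1000 * (1 / H ^ 2 * (1 / T + N / T ^ 2)) * S)
      ≤ 8 * X * (2 * L ^ (A + 2)) * (1000 * (25 * L / (X * L ^ (2 * A + 10))) * (128 * X)) := by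
    gcongr
  refine h3.trans ?_
  have h4 : L ^ (2 * A + 10) = L ^ (A + 2) * L ^ A * L ^ 8 := by
    rw [← pow_add, ← pow_add]
    congr 1
    omega
  have h5 : 8 * X * (2 * L ^ (A + 2)) * (1000 * (25 * L / (X * L ^ (2 * A + 10))) * (128 * X))
      = 51200000 * X / (L ^ A * L ^ 7) := by
    rw [h4]
    have h9 : L ^ (A + 2) ≠ 0 := by positivity
    generalize L ^ (A + 2) = q at h9
    field_simp
    ring
  rw [h5, div_le_div_iff₀ (by positivity) (by positivity)]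
  have h6 : 204800000 ≤ L ^ 7 := by
    calc (204800000 : ℝ) ≤ L := by linarith
      _ = L ^ 1 := (pow_one L).symm
      _ ≤ L ^ 7 := pow_le_pow_right₀ hL1 (by norm_num)
  calc 51200000 * X * (4 * L ^ A) = 204800000 * (X * L ^ A) := by ring
    _ ≤ L ^ 7 * (X * L ^ A) := mul_le_mul_of_nonneg_right h6 (by positivity)
    _ = X * (L ^ A * L ^ 7) := by ring

private theorem DSq_a (X K S L : ℝ) (A : ℕ) (hX : 0 < X) (hL : 51200 ≤ L)
    (hK : L ^ (A + 2) ≤ K) (hS : S ≤ 128 * X) :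
    100 * S / K ^ 2 ≤ X / (4 * L ^ A) := by
  have hL0 : 0 < L := by linarith
  have hL1 : 1 ≤ L := by linarith
  have hK0 : 0 < K := lt_of_lt_of_le (by positivity) hK
  have h1 : (L ^ (A + 2)) ^ 2 ≤ K ^ 2 := pow_le_pow_left₀ (by positivity) hK 2
  calc 100 * S / K ^ 2 ≤ 100 * (128 * X) / (L ^ (A + 2)) ^ 2 := by
        apply div_le_div₀ (by positivity) (by linarith) (by positivity) h1
    _ ≤ X / (4 * L ^ A) := by
        rw [div_le_div_iff₀ (by positivity) (by positivity)]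
        have h2 : (L ^ (A + 2)) ^ 2 = L ^ A * (L ^ A * L ^ 4) := by
          rw [← pow_mul, ← pow_add, ← pow_add]
          congr 1
          omega
        have h4 : 1 ≤ L ^ A := one_le_pow₀ hL1
        have h6 : 51200 ≤ L ^ 4 := by
          calc (51200 : ℝ) ≤ L := hL
            _ = L ^ 1 := (pow_one L).symm
            _ ≤ L ^ 4 := pow_le_pow_right₀ hL1 (by norm_num)
        rw [h2]
        have h7 : 51200 ≤ L ^ A * L ^ 4 := by nlinarith
        calc 100 * (128 * X) * (4 * L ^ A) = 51200 * (X * L ^ A) := by ring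
          _ ≤ L ^ A * L ^ 4 * (X * L ^ A) := mul_le_mul_of_nonneg_right h7 (by positivity)
          _ = X * (L ^ A * (L ^ A * L ^ 4)) := by ring

private theorem DSq_d (X K I L : ℝ) (A : ℕ) (hX : 0 < X) (hL : 256 ≤ L) (_hK0 : 0 ≤ K)
    (hK : K ≤ 2 * L ^ (A + 2)) (hI0 : 0 ≤ I) (hI : I ≤ X ^ 2 / L ^ (2 * A + 6)) :
    8 * X * K * (4 / X ^ 2 * I) ≤ X / (4 * L ^ A) := by
  have hL0 : 0 < L := by linarith
  have hL1 : 1 ≤ L := by linarith
  calc 8 * X * K * (4 / X ^ 2 * I) ≤ 8 * X * (2 * L ^ (A + 2)) * (4 / X ^ 2 * (X ^ 2 / L ^ (2 * A + 6))) := by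
        gcongr
    _ = 64 * X / (L ^ A * L ^ 4) := by
        have h8 : L ^ (2 * A + 6) = L ^ (A + 2) * (L ^ A * L ^ 4) := by
          rw [← pow_add, ← pow_add]
          congr 1
          omega
        rw [h8]
        have h9 : L ^ (A + 2) ≠ 0 := by positivity
        generalize L ^ (A + 2) = q at h9
        field_simp
        ring
    _ ≤ X / (4 * L ^ A) := by
        rw [div_le_div_iff₀ (by positivity) (by positivity)]
        have h8 : 0 < X * L ^ A := by positivity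
        have h6 : 256 ≤ L ^ 4 := by
          calc (256 : ℝ) ≤ L := hL
            _ = L ^ 1 := (pow_one L).symm
            _ ≤ L ^ 4 := pow_le_pow_right₀ hL1 (by norm_num)
        calc 64 * X * (4 * L ^ A) = 256 * (X * L ^ A) := by ring
          _ ≤ L ^ 4 * (X * L ^ A) := mul_le_mul_of_nonneg_right h6 h8.le
          _ = X * (L ^ A * L ^ 4) := by ring

theorem d_sq (hVK : VKp) (η : ℝ) (hη : 0 < η) (A B : ℕ) : ∃ A0 : ℕ, ∀ A1 : ℕ, A0 ≤ A1 → ∃ X0 : ℕ, ∀ X : ℕ, X0 ≤ X →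
    ∀ (P d a H H1 : ℕ) (b : ℕ → ℝ), (X : ℝ) ^ (1 / 5 + η) ≤ P → (X : ℝ) ^ (1 / 5 + η) ≤ H →
    (P : ℝ) ^ 2 * H ≤ 16 * X → 1 ≤ d → (d : ℝ) ≤ Real.log X ^ B → (∀ k, |b k| ≤ 1) →
    H ≤ H1 → (H1 : ℝ) ≤ X / Real.log X ^ A1 →
    ∑ x ∈ Ico X (2 * X), ‖D (tf b P ((a : ℝ) / d)) H H1 x‖ ^ 2 ≤ X / Real.log X ^ A := by
  obtain ⟨K', X1, hI⟩ := dp_int hVK η hη (2 * A + 6) B (2 * A + 10)
  refine ⟨A + 2 * K' + 10, ?_⟩
  intro A1 hA1
  obtain ⟨X2, hX2⟩ := Pool.Agent.H80.LV.log_ge (10 ^ 9)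
  obtain ⟨X3, hX3⟩ := Pool.Agent.H80.LV.log_pow_le (1 / 5) 2 (by norm_num) (by norm_num) (A + 2)
  obtain ⟨X4, hX4⟩ := Pool.Agent.H80.LV.log_pow_le (2 / 5) 16 (by norm_num) (by norm_num) K'
  obtain ⟨X5, hX5⟩ := Pool.Agent.H80.LV.log_pow_le (5 * η) 9 (by positivity) (by norm_num) 0
  refine ⟨max (max X1 X2) (max (max X3 X4) (max X5 8)), ?_⟩
  intro X hX P d a H H1 b hP hH hPH hd hdB hb hHH1 hH1
  simp only [max_le_iff] at hX
  obtain ⟨⟨hXa, hXb⟩, ⟨hXc, hXd⟩, hXe, hXh⟩ := hX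
  have hX8 : (8 : ℝ) ≤ X := by exact_mod_cast hXh
  have hX0 : (0 : ℝ) < X := by linarith
  have hX1' : (1 : ℝ) ≤ X := by linarith
  have hL := hX2 X hXb
  have h3 := hX3 X hXc
  have h4 := hX4 X hXd
  have h5 := hX5 X hXe
  set L := Real.log X with hLdef
  have hL1 : 1 ≤ L := by linarith
  have hL0 : 0 < L := by linarith
  -- sizes
  have hX15 : (X : ℝ) ^ (1 / 5 : ℝ) ≤ (X : ℝ) ^ (1 / 5 + η) :=
    Real.rpow_le_rpow_of_exponent_le hX1' (by linarith)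
  have hX15' : (1 : ℝ) ≤ (X : ℝ) ^ (1 / 5 : ℝ) := Real.one_le_rpow hX1' (by norm_num)
  have hP1 : (1 : ℝ) ≤ P := hX15'.trans (hX15.trans hP)
  have hPn : 1 ≤ P := by exact_mod_cast hP1
  have hH1r : (1 : ℝ) ≤ H := hX15'.trans (hX15.trans hH)
  have hHpos : (0 : ℝ) < H := by linarith
  have hLA1 : (0 : ℝ) < L ^ A1 := by positivity
  have hH1X : (H1 : ℝ) ≤ X := by
    refine hH1.trans ?_
    apply div_le_self hX0.le (one_le_pow₀ hL1)
  have hH1Xn : H1 ≤ X := by exact_mod_cast hH1X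
  have hHX : H ≤ X := hHH1.trans hH1Xn
  have hP5 : 8 * X < P ^ 5 := by
    have h6 : (8 : ℝ) * X < (P : ℝ) ^ 5 := by
      have h7 : (X : ℝ) ^ (1 + 5 * η) ≤ (P : ℝ) ^ 5 := by
        have h8 := pow_le_pow_left₀ (by positivity) hP 5
        refine le_trans (le_of_eq ?_) h8
        rw [← Real.rpow_natCast, ← Real.rpow_mul hX0.le]
        congr 1
        push_cast
        ring
      have h9 : (X : ℝ) ^ (1 + 5 * η) = X * (X : ℝ) ^ (5 * η) := by
        rw [Real.rpow_add hX0, Real.rpow_one]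
      rw [pow_zero, mul_one] at h5
      have h10 : (9 : ℝ) * X ≤ X * (X : ℝ) ^ (5 * η) := by nlinarith
      linarith
    exact_mod_cast h6
  -- the truncated function
  set K2 : ℕ := 4 * X / P with hK2def
  set f : ℕ → ℂ := tf (cut 0 K2 b) P ((a : ℝ) / d) with hf
  have hDf : ∑ x ∈ Ico X (2 * X), ‖D (tf b P ((a : ℝ) / d)) H H1 x‖ ^ 2 =
      ∑ x ∈ Ico X (2 * X), ‖D f H H1 x‖ ^ 2 := by
    refine sum_congr rfl fun x hx => ?_
    rw [DSq_Deq b P X H H1 x _ hPn hx hHX hH1Xn]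
  rw [hDf]
  -- parameters
  set K : ℕ := ⌈L ^ (A + 2)⌉₊ with hKdef
  have hK1 : L ^ (A + 2) ≤ K := Nat.le_ceil _
  have hLA2 : (1 : ℝ) ≤ L ^ (A + 2) := one_le_pow₀ hL1
  have hK2 : (K : ℝ) ≤ 2 * L ^ (A + 2) := by
    have := (Nat.ceil_lt_add_one (by positivity : 0 ≤ L ^ (A + 2))).le
    linarith
  have hK3 : 1 ≤ K := by
    have : (1 : ℝ) ≤ K := hLA2.trans hK1
    exact_mod_cast this
  have hKH : K ≤ H := by
    have h8 : (K : ℝ) ≤ H := (hK2.trans h3).trans (hX15.trans hH)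
    exact_mod_cast h8
  have hS : SS f (8 * X) ≤ 128 * X := DSq_ss b P X _ hP5 hb
  set S := SS f (8 * X) with hSdef
  have hS0 : 0 ≤ S := sum_nonneg fun _ _ => sq_nonneg _
  set T0 : ℝ := L ^ K' with hT0def
  set T : ℝ := X * L ^ (2 * A + 10) / H with hTdef
  have hHT : H * T = X * L ^ (2 * A + 10) := by
    rw [hTdef]
    field_simp
  have hT01 : 1 ≤ T0 := one_le_pow₀ hL1
  have hXH : (X : ℝ) ^ (2 / 5 : ℝ) * H ≤ 16 * X := by
    refine le_trans ?_ hPH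
    apply mul_le_mul_of_nonneg_right _ hHpos.le
    have h8 := pow_le_pow_left₀ (by positivity) (hX15.trans hP) 2
    refine le_trans (le_of_eq ?_) h8
    rw [← Real.rpow_natCast, ← Real.rpow_mul hX0.le]
    norm_num
  have hT0T : T0 ≤ T := by
    rw [hTdef, le_div_iff₀ hHpos]
    have h8 : 16 * (T0 * H) ≤ 16 * X := by
      calc 16 * (T0 * H) = 16 * L ^ K' * H := by rw [hT0def]; ring
        _ ≤ (X : ℝ) ^ (2 / 5 : ℝ) * H := mul_le_mul_of_nonneg_right h4 hHpos.le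
        _ ≤ 16 * X := hXH
    have h9 : (X : ℝ) * 1 ≤ X * L ^ (2 * A + 10) := mul_le_mul_of_nonneg_left (one_le_pow₀ hL1) hX0.le
    linarith
  have hTpos : 0 < T := by linarith
  have hI' := hI X hXa P K2 d a (8 * X) b H T hP hH hPH ?_ hd hdB hb (by linarith) ?_ ?_
  rotate_left
  · have h8 : 4 * X / P * P ≤ 4 * X := Nat.div_mul_le_self _ _
    rw [hK2def]
    omega
  · rw [mul_comm, hHT]
  · have h8 : P * (4 * X / P) ≤ 4 * X := Nat.mul_div_le _ _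
    rw [hK2def]
    calc 2 * P * (4 * X / P) = 2 * (P * (4 * X / P)) := by ring
      _ ≤ 2 * (4 * X) := Nat.mul_le_mul_left 2 h8
      _ = 8 * X := by ring
  set I : ℝ := ∫ t in {t : ℝ | T0 ≤ |t| ∧ |t| ≤ T}, ‖DP f (8 * X) t‖ ^ 2 with hIdef
  have hconv := conv f (8 * X) X H H1 K (by omega) hK3 hKH hHH1 hH1Xn (by omega)
  -- the Plancherel bound
  have hpars : ∀ i ∈ range K, ∫ u, ‖Gw f (8 * X) (Real.log (1 + H / (X * (1 + (i : ℝ) / K))))
          (Real.log (1 + H1 / (X * (1 + (i : ℝ) / K)))) H H1 u‖ ^ 2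
      ≤ 1000 * (T0 ^ 3 * H1 ^ 2 * ((8 * X : ℕ) : ℝ) / X ^ 4
          + 1 / H ^ 2 * (1 / T + ((8 * X : ℕ) : ℝ) * (1 + Real.log ((8 * X : ℕ) : ℝ)) / T ^ 2)) * S
        + 4 / X ^ 2 * I := by
    intro i _
    have hKr : (0 : ℝ) < K := by exact_mod_cast hK3
    have hi0 : (0 : ℝ) ≤ (i : ℝ) / K := by positivity
    set Xi : ℝ := X * (1 + (i : ℝ) / K) with hXi
    have hXiX : (X : ℝ) ≤ Xi := by rw [hXi]; nlinarith
    have hXi0 : 0 < Xi := by linarith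
    have hH1pos : (0 : ℝ) < H1 := by
      have : (H : ℝ) ≤ H1 := by exact_mod_cast hHH1
      linarith
    have hup : ∀ h : ℝ, 0 ≤ h → Real.log (1 + h / Xi) ≤ h / X := by
      intro h hh
      have h8 := Real.log_le_sub_one_of_pos (by positivity : 0 < 1 + h / Xi)
      have h9 : h / Xi ≤ h / X := div_le_div_of_nonneg_left hh hX0 hXiX
      linarith
    have hlo : ∀ h : ℝ, 0 ≤ h → 0 ≤ Real.log (1 + h / Xi) := by
      intro h hh
      apply Real.log_nonneg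
      have : 0 ≤ h / Xi := by positivity
      linarith
    exact pars f (8 * X) X H H1 _ _ T0 T (by omega) hX1'
      (by exact_mod_cast (hK3.trans hKH)) (by exact_mod_cast hHH1) hH1X (hlo _ hHpos.le)
      (hup _ hHpos.le) (hlo _ hH1pos.le) (hup _ hH1pos.le)
      (DSq_hd X Xi H H1 hX0 hXiX hHpos (by exact_mod_cast hHH1)) hT01 hT0T
  set E : ℝ := 1000 * (T0 ^ 3 * H1 ^ 2 * ((8 * X : ℕ) : ℝ) / X ^ 4
          + 1 / H ^ 2 * (1 / T + ((8 * X : ℕ) : ℝ) * (1 + Real.log ((8 * X : ℕ) : ℝ)) / T ^ 2)) * S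
        + 4 / X ^ 2 * I with hE
  have hsumE : ∑ i ∈ range K, ∫ u, ‖Gw f (8 * X) (Real.log (1 + H / (X * (1 + (i : ℝ) / K))))
          (Real.log (1 + H1 / (X * (1 + (i : ℝ) / K)))) H H1 u‖ ^ 2 ≤ K * E := by
    refine (sum_le_sum hpars).trans (le_of_eq ?_)
    simp [sum_const, card_range, nsmul_eq_mul]
  -- numerical bounds
  have hNr : ((8 * X : ℕ) : ℝ) = 8 * X := by push_cast; ring
  have hlogN : 1 + Real.log ((8 * X : ℕ) : ℝ) ≤ 3 * L := by
    rw [hNr, Real.log_mul (by norm_num) hX0.ne']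
    have : Real.log 8 ≤ 8 - 1 := Real.log_le_sub_one_of_pos (by norm_num)
    linarith
  have hlogN0 : 0 ≤ 1 + Real.log ((8 * X : ℕ) : ℝ) := by
    have : 0 ≤ Real.log ((8 * X : ℕ) : ℝ) := Real.log_natCast_nonneg _
    linarith
  have ea := DSq_a X K S L A hX0 (by linarith) hK1 hS
  have eb := DSq_b X K T0 H1 S L A K' A1 hX0 (by linarith) (by positivity) hK2 rfl (by positivity) hH1 hS0 hS
    (by omega)
  have ec := DSq_c X K H T (((8 * X : ℕ) : ℝ) * (1 + Real.log ((8 * X : ℕ) : ℝ))) S L A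
    hX1' hL (by positivity) hK2 hH1r hHT hTpos (by positivity)
    (by rw [hNr]; rw [hNr] at hlogN; nlinarith) hS0 hS
  have hI0 : 0 ≤ I := setIntegral_nonneg_of_ae (Filter.Eventually.of_forall fun _ => sq_nonneg _)
  have ed := DSq_d X K I L A hX0 (by linarith) (by positivity) hK2 hI0 hI'
  have hfin : ∑ x ∈ Ico X (2 * X), ‖D f H H1 x‖ ^ 2
      ≤ 100 * S / (K : ℝ) ^ 2 + 8 * X * (K * E) :=
    hconv.trans (by
      have := mul_le_mul_of_nonneg_left hsumE (by positivity : (0 : ℝ) ≤ 8 * X)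
      linarith)
  have hE2 : 8 * X * (K * E) = 8 * X * K * (1000 * (T0 ^ 3 * H1 ^ 2 * (8 * X) / X ^ 4) * S)
      + 8 * X * K * (1000 * (1 / H ^ 2 * (1 / T + ((8 * X : ℕ) : ℝ) * (1 + Real.log ((8 * X : ℕ) : ℝ)) / T ^ 2)) * S)
      + 8 * X * K * (4 / X ^ 2 * I) := by
    rw [hE]
    nth_rewrite 1 [hNr]
    ring
  rw [hE2] at hfin
  have h9 : X / (4 * L ^ A) + (X / (4 * L ^ A) + X / (4 * L ^ A) + X / (4 * L ^ A)) = X / L ^ A := by
    field_simp; ring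
  linarith

end Pool.Agent.H31.EQ
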