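import Pool.Agent.H53.MID.Defs
import Pool.Agent.H88.PSI.Defs

/-!
# PROJECT EQ (MP_967f73_nt): products `p k` in almost all short windows, in residue classes

`G(m) = ∑_{p ∈ pb P, p ∣ m} b(m/p)`, `b` arbitrary, `|b| ≤ 1` (`Pool.Agent.H53.MID.Fp b P m`).  THEOREM (`Fin.lean`): if `N^(1/5+e) ≤ H`, `N^(1/5+e) ≤ P`,
`P² H ≤ N`, `b` supported on integers without small prime factors: for almost all windows `∑_{x < n ≤ x+H, n ≡ c (d)} G(n) = [(c,d)=1] H η(x)/φ(d) + O(H/L^A)`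
(in mean square), `d ≤ L^B`, with the long average `η` of `G`.

* `tf b P α n = Fp b P n ee(-n α)`; `cf b P d c n = Fp b P n` for `n ≡ c (d)`, `0` otherwise;
* `Gs b y J0 J1 = ∑_{J0 ≤ j < J1} Fp (b j) (2^j y)`;
* `gam G H1 x` = the average of `G` over `(x, x + H1]`; `ew G H H1 d c x` = the error of the window `(x, x + H]` in the class `c` modulo `d`.
-/

set_option autoImplicit false

namespace Pool.Agent.H31.EQ

open Finset MeasureTheory
open Pool.Agent.H91.PK (ee)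
open Pool.Agent.H35.W (pb)
open Pool.Agent.H53.MID (Fp)

/-- `Fp b P n ee(-n α)` -/
noncomputable def tf (b : ℕ → ℝ) (P : ℕ) (α : ℝ) (n : ℕ) : ℂ := ((Fp b P n : ℝ) : ℂ) * ee (-((n : ℝ) * α))

/-- `Fp b P` on the class `c` modulo `d` -/
noncomputable def cf (b : ℕ → ℝ) (P d c n : ℕ) : ℂ := if n % d = c % d then ((Fp b P n : ℝ) : ℂ) else 0

/-- the sum of the boxes `p ∼ 2^j y` -/
noncomputable def Gs (b : ℕ → ℕ → ℝ) (y J0 J1 m : ℕ) : ℝ := ∑ j ∈ Ico J0 J1, Fp (b j) (2 ^ j * y) m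

/-- the long average -/
noncomputable def gam (G : ℕ → ℝ) (H1 x : ℕ) : ℝ := (∑ n ∈ Ioc x (x + H1), G n) / H1

/-- the error of the window `(x, x + H]` in the class `c` modulo `d` -/
noncomputable def ew (G : ℕ → ℝ) (H H1 d c x : ℕ) : ℝ :=
  (∑ n ∈ (Ioc x (x + H)).filter (fun n => n % d = c % d), G n)
    - (if Nat.Coprime c d then (H : ℝ) * gam G H1 x / d.totient else 0)

/-- distribution of `Y` in almost all windows and all classes to small moduli, with the density `η` -/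
def WDx (N H A B : ℕ) (Y η : ℕ → ℝ) : Prop := ∀ d c : ℕ, 1 ≤ d → (d : ℝ) ≤ Real.log N ^ B →
  ∑ x ∈ Icc (N / 8) (8 * N), ((∑ n ∈ (Ioc x (x + H)).filter (fun n => n % d = c % d), Y n)
    - (if Nat.Coprime c d then (H : ℝ) * η x / d.totient else 0)) ^ 2 ≤ N * (H : ℝ) ^ 2 / Real.log N ^ A

end Pool.Agent.H31.EQ
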