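import Pool.Agent.H31.EQ.PInt

/-!
# EQ DpInt: the mean square of the twisted Dirichlet polynomial

`cut 0 K2 b` vanishes outside `(0, K2]`; `DP (tf (cut 0 K2 b) P (a/d)) N t = Cs (cc (cut 0 K2 b) P (a/d) 0) N (-t)`.  `fac_sq` (`K1 = 0`, `X := N`, `T = 0`):
`‖·‖² ≤ d ∑_{l<d} ‖Pl P d l (0 + -t)‖² ‖Kl b 0 K2 (l a/d) (0 + -t)‖²`; the region is symmetric (substitution `t ↦ -t`), `p_int` with `A + 2B` for every `l`.
-/

set_option autoImplicit false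

namespace Pool.Agent.H31.EQ

open Finset MeasureTheory
open Pool.Agent.H91.PK (ee)
open Pool.Agent.H35.W (pb)
open Pool.Agent.H53.MID (Fp Pl Kl VKp cut)
open Pool.Agent.H88.PSI (DP)

private theorem DpInt_ee_cont (c : ℝ) : Continuous fun t : ℝ => ee (-(t * c)) := by
  unfold ee
  fun_prop

private theorem DpInt_ee_zero (c : ℝ) : ee (-(0 * c)) = 1 := by
  unfold ee
  simp

private theorem DpInt_Pl_cont (P d l : ℕ) : Continuous fun t : ℝ => ‖Pl P d l t‖ ^ 2 := by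
  refine Continuous.pow (Continuous.norm ?_) 2
  unfold Pl
  exact continuous_finsetSum _ fun p _ => DpInt_ee_cont _

private theorem DpInt_Kl_cont (b : ℕ → ℝ) (K1 K2 : ℕ) (a : ℝ) : Continuous fun t : ℝ => ‖Kl b K1 K2 a t‖ ^ 2 := by
  refine Continuous.pow (Continuous.norm ?_) 2
  unfold Kl
  exact continuous_finsetSum _ fun k _ => continuous_const.mul (DpInt_ee_cont _)

private theorem DpInt_DP (f : ℕ → ℝ) (P N : ℕ) (α t : ℝ) :
    DP (tf f P α) N t = Pool.Agent.H53.MID.Cs (Pool.Agent.H53.MID.cc f P α 0) N (-t) := by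
  unfold DP Pool.Agent.H53.MID.Cs
  refine Finset.sum_congr rfl fun m _ => ?_
  unfold tf Pool.Agent.H53.MID.cc
  rw [DpInt_ee_zero, mul_one]
  congr 2
  ring

private theorem DpInt_DP_cont (f : ℕ → ℂ) (N : ℕ) : Continuous fun t : ℝ => ‖DP f N t‖ ^ 2 := by
  refine Continuous.pow (Continuous.norm ?_) 2
  unfold DP
  refine continuous_finsetSum _ fun m _ => continuous_const.mul ?_
  unfold ee
  fun_prop

private theorem DpInt_neg (F : ℝ → ℝ) (R : Set ℝ) (hR : ∀ t, -t ∈ R ↔ t ∈ R) (hRm : MeasurableSet R) :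
    ∫ t in R, F (-t) = ∫ t in R, F t := by
  rw [← integral_indicator hRm, ← integral_indicator hRm,
    ← integral_neg_eq_self (R.indicator F)]
  refine integral_congr_ae (Filter.Eventually.of_forall fun t => ?_)
  by_cases h : t ∈ R
  · have h' : -t ∈ R := (hR t).2 h
    simp only [Set.indicator_of_mem h, Set.indicator_of_mem h']
  · have h' : -t ∉ R := fun h1 => h ((hR t).1 h1)
    simp only [Set.indicator_of_notMem h, Set.indicator_of_notMem h']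

theorem dp_int (hVK : VKp) (η : ℝ) (hη : 0 < η) (A B C4 : ℕ) : ∃ K' X0 : ℕ, ∀ X : ℕ, X0 ≤ X →
    ∀ (P K2 d a N : ℕ) (b : ℕ → ℝ) (H T : ℝ), (X : ℝ) ^ (1 / 5 + η) ≤ P → (X : ℝ) ^ (1 / 5 + η) ≤ H →
    (P : ℝ) ^ 2 * H ≤ 16 * X → K2 * P ≤ 16 * X → 1 ≤ d → (d : ℝ) ≤ Real.log X ^ B → (∀ k, |b k| ≤ 1) →
    1 ≤ T → T * H ≤ X * Real.log X ^ C4 → 2 * P * K2 ≤ N →
    ∫ t in {t : ℝ | Real.log X ^ K' ≤ |t| ∧ |t| ≤ T}, ‖DP (tf (cut 0 K2 b) P ((a : ℝ) / d)) N t‖ ^ 2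
      ≤ (X : ℝ) ^ 2 / Real.log X ^ A := by
  obtain ⟨K', X0, hX0⟩ := p_int hVK η hη (A + 2 * B) B C4
  refine ⟨K', max X0 3, ?_⟩
  intro X hX P K2 d a N b H T h1 h2 h3 h4 h5 h6 h7 h8 h9 h10
  have hX1 : X0 ≤ X := (le_max_left _ _).trans hX
  have hX3 : 3 ≤ X := (le_max_right _ _).trans hX
  have hL : 0 < Real.log X := Real.log_pos (by exact_mod_cast (by omega : 1 < X))
  set R : Set ℝ := {t : ℝ | Real.log X ^ K' ≤ |t| ∧ |t| ≤ T} with hRdef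
  have hRsym : ∀ t, -t ∈ R ↔ t ∈ R := by
    intro t
    simp only [hRdef, Set.mem_ofPred_eq, abs_neg]
  have hRm : MeasurableSet R := by
    have hc : Continuous fun t : ℝ => |t| := continuous_abs
    exact ((isClosed_Ici.preimage hc).measurableSet).inter ((isClosed_Iic.preimage hc).measurableSet)
  have hRs : R ⊆ Set.Icc (-T) T := fun t ht => Set.mem_Icc.2 (abs_le.1 ht.2)
  have hint : ∀ F : ℝ → ℝ, Continuous F → IntegrableOn F R := fun F hF =>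
    (hF.continuousOn.integrableOn_Icc (μ := volume)).mono_set hRs
  have hcont : ∀ l : ℕ, Continuous fun t : ℝ => ‖Pl P d l t‖ ^ 2 * ‖Kl b 0 K2 ((l : ℝ) * a / d) t‖ ^ 2 :=
    fun l => (DpInt_Pl_cont P d l).mul (DpInt_Kl_cont b 0 K2 _)
  have hI1 : ∫ t in R, ‖DP (tf (cut 0 K2 b) P ((a : ℝ) / d)) N t‖ ^ 2 ≤
      ∫ t in R, d * ∑ l ∈ range d, ‖Pl P d l (-t)‖ ^ 2 * ‖Kl b 0 K2 ((l : ℝ) * a / d) (-t)‖ ^ 2 := by
    refine setIntegral_mono_on (hint _ (DpInt_DP_cont _ N)) (hint _ ?_) hRm fun t _ => ?_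
    · exact continuous_const.mul (continuous_finsetSum _ fun l _ => (hcont l).comp continuous_neg)
    · have h := Pool.Agent.H53.MID.fac_sq b P 0 K2 N d a 0 (-t) h5 h10
      rw [zero_add] at h
      rw [DpInt_DP]
      exact h
  have hI2 : ∫ t in R, d * ∑ l ∈ range d, ‖Pl P d l (-t)‖ ^ 2 * ‖Kl b 0 K2 ((l : ℝ) * a / d) (-t)‖ ^ 2 =
      d * ∑ l ∈ range d, ∫ t in R, ‖Pl P d l t‖ ^ 2 * ‖Kl b 0 K2 ((l : ℝ) * a / d) t‖ ^ 2 := by
    have hs : ∫ t in R, ∑ l ∈ range d, ‖Pl P d l (-t)‖ ^ 2 * ‖Kl b 0 K2 ((l : ℝ) * a / d) (-t)‖ ^ 2 =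
        ∑ l ∈ range d, ∫ t in R, ‖Pl P d l (-t)‖ ^ 2 * ‖Kl b 0 K2 ((l : ℝ) * a / d) (-t)‖ ^ 2 :=
      integral_finsetSum (range d) fun l _ =>
        hint (fun t => ‖Pl P d l (-t)‖ ^ 2 * ‖Kl b 0 K2 ((l : ℝ) * a / d) (-t)‖ ^ 2)
          ((hcont l).comp continuous_neg)
    rw [integral_const_mul, hs]
    congr 1
    refine Finset.sum_congr rfl fun l _ => ?_
    exact DpInt_neg (fun t => ‖Pl P d l t‖ ^ 2 * ‖Kl b 0 K2 ((l : ℝ) * a / d) t‖ ^ 2) R hRsym hRm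
  have hI3 : ∀ l ∈ range d, ∫ t in R, ‖Pl P d l t‖ ^ 2 * ‖Kl b 0 K2 ((l : ℝ) * a / d) t‖ ^ 2 ≤
      (X : ℝ) ^ 2 / Real.log X ^ (A + 2 * B) := fun l _ =>
    hX0 X hX1 P 0 K2 d l b H ((l : ℝ) * a / d) T h1 h2 h3 h4 h5 h6 h7 h8 h9
  have hI4 := Finset.sum_le_sum hI3
  rw [sum_const, card_range, nsmul_eq_mul] at hI4
  calc ∫ t in R, ‖DP (tf (cut 0 K2 b) P ((a : ℝ) / d)) N t‖ ^ 2
      ≤ d * (d * ((X : ℝ) ^ 2 / Real.log X ^ (A + 2 * B))) :=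
        (hI1.trans (le_of_eq hI2)).trans (mul_le_mul_of_nonneg_left hI4 (Nat.cast_nonneg d))
    _ ≤ Real.log X ^ B * (Real.log X ^ B * ((X : ℝ) ^ 2 / Real.log X ^ (A + 2 * B))) := by
        have hpos : 0 ≤ (X : ℝ) ^ 2 / Real.log X ^ (A + 2 * B) := by positivity
        have hLB : 0 ≤ Real.log X ^ B := by positivity
        exact mul_le_mul h6 (mul_le_mul_of_nonneg_right h6 hpos) (mul_nonneg (Nat.cast_nonneg d) hpos) hLB
    _ = (X : ℝ) ^ 2 / Real.log X ^ A := by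
        rw [show A + 2 * B = A + (B + B) by ring, pow_add, pow_add]
        field_simp

end Pool.Agent.H31.EQ
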