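import Pool.Agent.H31.EQ.Main

/-!
# EQ Fin: the theorem

`eq2`: `eq_s` with `η = e/2`, `A + 1`, `B + 1` for `X = 2^i ⌊N/8⌋`, `i = 0, .., 6` (they cover `[N/8, 8N]`; `N/9 ≤ X ≤ 8N`, `log N/2 ≤ log X ≤ 2 log N`; `H ≥ N^(1/5+e) ≥ X^(1/5+e/2)`;
`(2^J1 y)² H ≤ N ≤ 16 X`; `H1 = ⌊N/L^A1⌋`: `X/(log X)^(A1+1) ≤ H1 ≤ X/(log X)^(A1-1)`; a prime factor of `k` is `> L^B ≥ d`, so `(k, d) = 1`).
`gs_le`: `|Gs| ≤ ∑_j #{p ∈ pb (2^j y) : p ∣ n} ≤ 4` for `n ≤ 16 N` (the boxes are disjoint; five primes `> N^(1/5+e)` have a product `> 16 N`).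
`gam_le`, `gam_lip`: trivial.
-/

set_option autoImplicit false

namespace Pool.Agent.H31.EQ

open Finset
open Pool.Agent.H91.PK (ee)
open Pool.Agent.H53.MID (Fp VKp)

/-- eventual facts used for `eq2` -/
private theorem Fin_ev (e : ℝ) (he : 0 < e) (C : ℝ) (A1 X0 : ℕ) : ∃ N0 : ℕ, ∀ N : ℕ, N0 ≤ N →
    8 ≤ N ∧ 8 * X0 + 8 ≤ N ∧ C ≤ Real.log N ∧ 8 ^ (1 / 5 + e / 2) ≤ (N : ℝ) ^ (e / 2) ∧
      16 * (N : ℝ) ≤ ((N : ℝ) ^ (1 / 5 + e)) ^ (5 : ℕ) ∧ 2 * Real.log N ^ A1 ≤ N := by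
  have h1 : ∀ᶠ N : ℕ in Filter.atTop, 8 ≤ N ∧ 8 * X0 + 8 ≤ N :=
    (Filter.eventually_ge_atTop 8).and (Filter.eventually_ge_atTop _)
  have h2 : ∀ᶠ N : ℕ in Filter.atTop, C ≤ Real.log N :=
    (Real.tendsto_log_atTop.comp tendsto_natCast_atTop_atTop).eventually_ge_atTop C
  have h3 : ∀ᶠ N : ℕ in Filter.atTop, (8 : ℝ) ^ (1 / 5 + e / 2) ≤ (N : ℝ) ^ (e / 2) :=
    ((tendsto_rpow_atTop (by linarith : 0 < e / 2)).comp tendsto_natCast_atTop_atTop).eventually_ge_atTop _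
  have h4 : ∀ᶠ N : ℕ in Filter.atTop, (16 : ℝ) ≤ (N : ℝ) ^ (5 * e) :=
    ((tendsto_rpow_atTop (by linarith : 0 < 5 * e)).comp tendsto_natCast_atTop_atTop).eventually_ge_atTop _
  have h5 : ∀ᶠ N : ℕ in Filter.atTop, 2 * Real.log N ^ A1 ≤ (N : ℝ) := by
    have h := (isLittleO_log_rpow_rpow_atTop (s := 1) (A1 : ℝ) zero_lt_one).bound (show (0 : ℝ) < 1 / 2 by norm_num)
    have h' := (tendsto_natCast_atTop_atTop (R := ℝ)).eventually h
    filter_upwards [h', Filter.eventually_ge_atTop 1] with N hN hN1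
    have hl : 0 ≤ Real.log N := Real.log_natCast_nonneg N
    rw [Real.rpow_natCast, Real.rpow_one, Real.norm_of_nonneg (pow_nonneg hl _), Real.norm_of_nonneg (Nat.cast_nonneg N)] at hN
    linarith
  obtain ⟨N0, hN0⟩ := Filter.eventually_atTop.1 (h1.and (h2.and (h3.and (h4.and h5))))
  refine ⟨N0, fun N hN => ?_⟩
  obtain ⟨⟨g1, g1'⟩, g2, g3, g4, g5⟩ := hN0 N hN
  refine ⟨g1, g1', g2, g3, ?_, g5⟩
  have hN : (0 : ℝ) < N := by exact_mod_cast (by omega : 0 < N)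
  rw [← Real.rpow_natCast, ← Real.rpow_mul hN.le]
  rw [show (1 / 5 + e) * ((5 : ℕ) : ℝ) = 5 * e + 1 by push_cast; ring, Real.rpow_add hN, Real.rpow_one]
  exact mul_le_mul_of_nonneg_right g4 hN.le

private theorem Fin_bU (s : Finset ℕ) (t : ℕ → Finset ℕ) (f : ℕ → ℝ) (hf : ∀ x, 0 ≤ f x) :
    ∑ x ∈ s.biUnion t, f x ≤ ∑ i ∈ s, ∑ x ∈ t i, f x := by
  induction s using Finset.induction_on with
  | empty => simp
  | insert a s ha ih =>
    rw [biUnion_insert, sum_insert ha]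
    have h1 := sum_union_inter (s₁ := t a) (s₂ := s.biUnion t) (f := f)
    have h2 : 0 ≤ ∑ x ∈ t a ∩ s.biUnion t, f x := sum_nonneg fun x _ => hf x
    linarith

theorem eq2 (hVK : VKp) (e : ℝ) (he : 0 < e) (A B : ℕ) : ∃ A0 : ℕ, ∀ A1 : ℕ, A0 ≤ A1 →
    ∃ N0 : ℕ, ∀ N : ℕ, N0 ≤ N → ∀ (H y J0 J1 : ℕ) (b : ℕ → ℕ → ℝ), (N : ℝ) ^ (1 / 5 + e) ≤ H → (N : ℝ) ^ (1 / 5 + e) ≤ (2 ^ J0 * y : ℕ) →
      ((2 ^ J1 * y : ℕ) : ℝ) ^ 2 * H ≤ N → (∀ j k, |b j k| ≤ 1) →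
      (∀ j k, b j k ≠ 0 → ∀ q : ℕ, q.Prime → q ∣ k → Real.log N ^ B < q) →
      WDx N H A B (Gs b y J0 J1) (gam (Gs b y J0 J1) ⌊(N : ℝ) / Real.log N ^ A1⌋₊) := by
  obtain ⟨A0, hA0⟩ := eq_s hVK (e / 2) (by linarith) (A + 1) (B + 1)
  refine ⟨A0 + 1, fun A1 hA1 => ?_⟩
  obtain ⟨X0, hX0⟩ := hA0 (A1 - 1) (by omega) (A1 + 1)
  obtain ⟨N0, hN0⟩ := Fin_ev e he (max (max (9 * 2 ^ A1) (16 * 2 ^ (A1 + 1))) (max (56 * 2 ^ (A + 1)) (max (2 ^ (B + 1)) 6))) A1 X0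
  refine ⟨N0, fun N hN H y J0 J1 b hH hy hyH hb hbq d c hd hdL => ?_⟩
  obtain ⟨hN8, hNX, hL, h8, -, h2L⟩ := hN0 N hN
  have hL1 : 9 * 2 ^ A1 ≤ Real.log N := (le_max_left _ _).trans ((le_max_left _ _).trans hL)
  have hL2 : 16 * 2 ^ (A1 + 1) ≤ Real.log N := (le_max_right _ _).trans ((le_max_left _ _).trans hL)
  have hL3 : 56 * 2 ^ (A + 1) ≤ Real.log N := (le_max_left _ _).trans ((le_max_right _ _).trans hL)
  have hL4 : 2 ^ (B + 1) ≤ Real.log N := (le_max_left _ _).trans ((le_max_right _ _).trans ((le_max_right _ _).trans hL))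
  have hL5 : 6 ≤ Real.log N := (le_max_right _ _).trans ((le_max_right _ _).trans ((le_max_right _ _).trans hL))
  have hNpos : (0 : ℝ) < N := by exact_mod_cast (by omega : 0 < N)
  have hLpos : 0 < Real.log N := by linarith
  set L : ℝ := Real.log N with hLdef
  set H1 : ℕ := ⌊(N : ℝ) / L ^ A1⌋₊ with hH1
  set M : ℕ := N / 8 with hM
  have hMX : X0 ≤ M := by omega
  have hM1 : 1 ≤ M := by omega
  have hM16 : N ≤ 16 * M := by omega
  have hM8 : 8 * M ≤ N := by omega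
  -- the bound for one dyadic range
  have key : ∀ i ∈ range 7, ∑ x ∈ Ico (2 ^ i * M) (2 * (2 ^ i * M)), ew (Gs b y J0 J1) H H1 d c x ^ 2
      ≤ 8 * N * (H : ℝ) ^ 2 * 2 ^ (A + 1) / L ^ (A + 1) := by
    intro i hi
    rw [mem_range] at hi
    obtain ⟨X, hX⟩ : ∃ X, X = 2 ^ i * M := ⟨_, rfl⟩
    rw [← hX]
    have hi2 : 2 ^ i ≤ 64 := by
      calc 2 ^ i ≤ 2 ^ 6 := Nat.pow_le_pow_right (by norm_num) (by omega)
        _ = 64 := by norm_num
    have hi1 : 1 ≤ 2 ^ i := Nat.one_le_two_pow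
    have hXM : M ≤ X := by rw [hX]; exact Nat.le_mul_of_pos_left M (by omega)
    have hX64 : X ≤ 64 * M := by rw [hX]; exact Nat.mul_le_mul_right M hi2
    have hXN : X ≤ 8 * N := by omega
    have hX16 : N ≤ 16 * X := by omega
    have hXpos : (0 : ℝ) < X := by exact_mod_cast (by omega : 0 < X)
    have hXN' : (X : ℝ) ≤ 8 * N := by exact_mod_cast hXN
    have hX16' : (N : ℝ) ≤ 16 * X := by exact_mod_cast hX16
    have hlog16 : Real.log 16 ≤ 3 := by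
      have h1 : Real.log 16 = 4 * Real.log 2 := by
        rw [show (16 : ℝ) = 2 ^ (4 : ℕ) by norm_num, Real.log_pow]
        norm_num
      have h2 := Real.log_two_lt_d9
      rw [h1]
      linarith
    have hlog8 : Real.log 8 ≤ 3 := by
      refine le_trans (Real.log_le_log (by norm_num) (by norm_num)) hlog16
    have hlX1 : Real.log X ≤ 2 * L := by
      have h1 : Real.log X ≤ Real.log (8 * N) := Real.log_le_log hXpos hXN'
      rw [Real.log_mul (by norm_num) hNpos.ne'] at h1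
      linarith
    have hlX2 : L / 2 ≤ Real.log X := by
      have h1 : Real.log N ≤ Real.log (16 * X) := Real.log_le_log hNpos hX16'
      rw [Real.log_mul (by norm_num) hXpos.ne', ← hLdef] at h1
      linarith
    have hlXpos : 0 < Real.log X := by linarith
    have hpow : (X : ℝ) ^ (1 / 5 + e / 2) ≤ (N : ℝ) ^ (1 / 5 + e) := by
      calc (X : ℝ) ^ (1 / 5 + e / 2) ≤ (8 * N : ℝ) ^ (1 / 5 + e / 2) :=
            Real.rpow_le_rpow hXpos.le hXN' (by linarith)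
        _ = 8 ^ (1 / 5 + e / 2) * (N : ℝ) ^ (1 / 5 + e / 2) := Real.mul_rpow (by norm_num) hNpos.le
        _ ≤ (N : ℝ) ^ (e / 2) * (N : ℝ) ^ (1 / 5 + e / 2) :=
            mul_le_mul_of_nonneg_right h8 (Real.rpow_nonneg hNpos.le _)
        _ = (N : ℝ) ^ (1 / 5 + e) := by rw [← Real.rpow_add hNpos]; congr 1; ring
    have hcop : ∀ j k, b j k ≠ 0 → Nat.Coprime k d := by
      intro j k hbk
      refine Nat.Coprime.symm (Nat.coprime_of_dvd' ?_)
      intro q hq hqd hqk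
      exfalso
      have h1 := hbq j k hbk q hq hqk
      have h2 : q ≤ d := Nat.le_of_dvd hd hqd
      have h3 : (q : ℝ) ≤ d := by exact_mod_cast h2
      linarith
    have hdX : (d : ℝ) ≤ Real.log X ^ (B + 1) := by
      refine hdL.trans ?_
      have h1 : (L / 2) ^ (B + 1) ≤ Real.log X ^ (B + 1) := pow_le_pow_left₀ (by linarith) hlX2 _
      refine le_trans ?_ h1
      rw [div_pow, le_div_iff₀ (by positivity), pow_succ L B]
      exact mul_le_mul_of_nonneg_left hL4 (by positivity)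
    have hH1a : (H1 : ℝ) ≤ X / Real.log X ^ (A1 - 1) := by
      have h1 : (H1 : ℝ) ≤ N / L ^ A1 := Nat.floor_le (by positivity)
      refine h1.trans ?_
      rw [div_le_div_iff₀ (by positivity) (by positivity)]
      have h2 : Real.log X ^ (A1 - 1) ≤ (2 * L) ^ (A1 - 1) := pow_le_pow_left₀ hlXpos.le hlX1 _
      have hA1' : A1 = (A1 - 1) + 1 := by omega
      have h3 : L ^ A1 = L ^ (A1 - 1) * L := by
        conv_lhs => rw [hA1']
        rw [pow_succ]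
      have h4 : (16 : ℝ) * 2 ^ (A1 - 1) ≤ L := by
        have h5 : (2 : ℝ) ^ A1 = 2 ^ (A1 - 1) * 2 := by
          conv_lhs => rw [hA1']
          rw [pow_succ]
        have h6 : (2 : ℝ) ^ (A1 + 1) = 2 ^ (A1 - 1) * 2 * 2 := by rw [pow_succ, h5]
        have h7 : (0 : ℝ) < 2 ^ (A1 - 1) := by positivity
        rw [h6] at hL2
        linarith
      have h5 : (N : ℝ) * Real.log X ^ (A1 - 1) ≤ (16 * X) * (2 * L) ^ (A1 - 1) :=
        mul_le_mul hX16' h2 (by positivity) (by positivity)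
      refine h5.trans ?_
      rw [h3, mul_pow]
      calc (16 : ℝ) * X * (2 ^ (A1 - 1) * L ^ (A1 - 1)) = (X * L ^ (A1 - 1)) * (16 * 2 ^ (A1 - 1)) := by ring
        _ ≤ (X * L ^ (A1 - 1)) * L := mul_le_mul_of_nonneg_left h4 (by positivity)
        _ = X * (L ^ (A1 - 1) * L) := by ring
    have hH1b : X / Real.log X ^ (A1 + 1) ≤ (H1 : ℝ) := by
      have h1 : (N : ℝ) / L ^ A1 - 1 ≤ H1 := by
        have := Nat.lt_floor_add_one ((N : ℝ) / L ^ A1)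
        rw [← hH1] at this
        linarith
      have h2 : (1 : ℝ) ≤ N / (2 * L ^ A1) := by
        rw [le_div_iff₀ (by positivity)]
        linarith
      have h3 : (N : ℝ) / (2 * L ^ A1) = (N / L ^ A1) / 2 := by
        rw [div_div, mul_comm]
      have h4 : (N : ℝ) / (2 * L ^ A1) ≤ H1 := by rw [h3] at h2 ⊢; linarith
      refine le_trans ?_ h4
      have h5 : (L / 2) ^ (A1 + 1) ≤ Real.log X ^ (A1 + 1) := pow_le_pow_left₀ (by linarith) hlX2 _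
      calc (X : ℝ) / Real.log X ^ (A1 + 1) ≤ (8 * N) / (L / 2) ^ (A1 + 1) :=
            div_le_div₀ (by positivity) hXN' (by positivity) h5
        _ = (N * (8 * 2 ^ (A1 + 1))) / (L ^ A1 * L) := by
            rw [div_pow, pow_succ L A1]
            field_simp
        _ ≤ N / (2 * L ^ A1) := by
            rw [div_le_div_iff₀ (by positivity) (by positivity)]
            calc (N : ℝ) * (8 * 2 ^ (A1 + 1)) * (2 * L ^ A1) = (N * L ^ A1) * (16 * 2 ^ (A1 + 1)) := by ring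
              _ ≤ (N * L ^ A1) * L := mul_le_mul_of_nonneg_left hL2 (by positivity)
              _ = N * (L ^ A1 * L) := by ring
    have h := hX0 X (hMX.trans hXM) y J0 J1 d c H H1 b (hpow.trans hy) (hpow.trans hH)
      (hyH.trans hX16') hd hdX hb hcop hH1a hH1b
    refine h.trans ?_
    have h5 : (L / 2) ^ (A + 1) ≤ Real.log X ^ (A + 1) := pow_le_pow_left₀ (by linarith) hlX2 _
    calc (X : ℝ) * (H : ℝ) ^ 2 / Real.log X ^ (A + 1) ≤ (8 * N) * (H : ℝ) ^ 2 / (L / 2) ^ (A + 1) :=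
          div_le_div₀ (by positivity) (mul_le_mul_of_nonneg_right hXN' (by positivity)) (by positivity) h5
      _ = 8 * N * (H : ℝ) ^ 2 * 2 ^ (A + 1) / L ^ (A + 1) := by
          rw [div_pow]
          field_simp
  -- the union of the dyadic ranges
  have hcov : ∀ x ∈ Icc M (8 * N), ∃ i ∈ range 7, x ∈ Ico (2 ^ i * M) (2 * (2 ^ i * M)) := by
    intro x hx
    rw [mem_Icc] at hx
    have hx2 : x < 128 * M := by omega
    by_cases h1 : x < 2 * M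
    · exact ⟨0, by simp, by rw [mem_Ico]; omega⟩
    by_cases h2 : x < 4 * M
    · exact ⟨1, by simp, by rw [mem_Ico]; omega⟩
    by_cases h3 : x < 8 * M
    · exact ⟨2, by simp, by rw [mem_Ico]; omega⟩
    by_cases h4 : x < 16 * M
    · exact ⟨3, by simp, by rw [mem_Ico]; omega⟩
    by_cases h5 : x < 32 * M
    · exact ⟨4, by simp, by rw [mem_Ico]; omega⟩
    by_cases h6 : x < 64 * M
    · exact ⟨5, by simp, by rw [mem_Ico]; omega⟩
    · exact ⟨6, by simp, by rw [mem_Ico]; omega⟩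
  have hsub : Icc M (8 * N) ⊆ (range 7).biUnion (fun i => Ico (2 ^ i * M) (2 * (2 ^ i * M))) := by
    intro x hx
    rw [mem_biUnion]
    exact hcov x hx
  calc ∑ x ∈ Icc (N / 8) (8 * N), ((∑ n ∈ (Ioc x (x + H)).filter (fun n => n % d = c % d), Gs b y J0 J1 n)
        - (if Nat.Coprime c d then (H : ℝ) * gam (Gs b y J0 J1) H1 x / d.totient else 0)) ^ 2
      = ∑ x ∈ Icc M (8 * N), ew (Gs b y J0 J1) H H1 d c x ^ 2 := rfl
    _ ≤ ∑ x ∈ (range 7).biUnion (fun i => Ico (2 ^ i * M) (2 * (2 ^ i * M))), ew (Gs b y J0 J1) H H1 d c x ^ 2 :=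
        sum_le_sum_of_subset_of_nonneg hsub (fun _ _ _ => sq_nonneg _)
    _ ≤ ∑ i ∈ range 7, ∑ x ∈ Ico (2 ^ i * M) (2 * (2 ^ i * M)), ew (Gs b y J0 J1) H H1 d c x ^ 2 := by
        exact Fin_bU _ _ _ (fun _ => sq_nonneg _)
    _ ≤ ∑ i ∈ range 7, 8 * N * (H : ℝ) ^ 2 * 2 ^ (A + 1) / L ^ (A + 1) := sum_le_sum key
    _ = (N * (H : ℝ) ^ 2) * (56 * 2 ^ (A + 1)) / (L ^ A * L) := by
        rw [sum_const, card_range, pow_succ L A, nsmul_eq_mul]
        push_cast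
        ring
    _ ≤ N * (H : ℝ) ^ 2 / L ^ A := by
        rw [div_le_div_iff₀ (by positivity) (by positivity)]
        calc (N * (H : ℝ) ^ 2) * (56 * 2 ^ (A + 1)) * L ^ A ≤ (N * (H : ℝ) ^ 2) * L * L ^ A :=
              mul_le_mul_of_nonneg_right (mul_le_mul_of_nonneg_left hL3 (by positivity)) (by positivity)
          _ = N * (H : ℝ) ^ 2 * (L ^ A * L) := by ring

theorem gs_le (e : ℝ) (he : 0 < e) : ∃ N0 : ℕ, ∀ N : ℕ, N0 ≤ N → ∀ (y J0 J1 : ℕ) (b : ℕ → ℕ → ℝ),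
    (N : ℝ) ^ (1 / 5 + e) ≤ (2 ^ J0 * y : ℕ) → (∀ j k, |b j k| ≤ 1) → ∀ n, 1 ≤ n → n ≤ 16 * N → |Gs b y J0 J1 n| ≤ 4 := by
  obtain ⟨N0, hN0⟩ := Fin_ev e he 1 0 0
  refine ⟨N0, fun N hN y J0 J1 b hy hb n hn1 hn2 => ?_⟩
  obtain ⟨hN8, -, hL, -, h16, -⟩ := hN0 N hN
  have hNpos : (0 : ℝ) < N := by exact_mod_cast (by omega : 0 < N)
  obtain ⟨S, hS⟩ : ∃ S, S = (Ico J0 J1).biUnion (fun j => (Pool.Agent.H35.W.pb (2 ^ j * y)).filter (fun p => p ∣ n)) := ⟨_, rfl⟩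
  have hdisj : ((Ico J0 J1 : Finset ℕ) : Set ℕ).PairwiseDisjoint (fun j => (Pool.Agent.H35.W.pb (2 ^ j * y)).filter (fun p => p ∣ n)) := by
    intro i _ j _ hij
    rw [Function.onFun, disjoint_left]
    intro p hp hp'
    rw [mem_filter, Pool.Agent.H35.W.pb, mem_filter, mem_Ioc] at hp hp'
    rcases lt_or_gt_of_ne hij with h | h
    · have h1 : 2 * (2 ^ i * y) ≤ 2 ^ j * y := by
        have : 2 ^ (i + 1) * y ≤ 2 ^ j * y := Nat.mul_le_mul_right y (Nat.pow_le_pow_right (by norm_num) h)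
        rw [pow_succ] at this
        linarith [this, (by ring : 2 * (2 ^ i * y) = 2 ^ i * 2 * y)]
      omega
    · have h1 : 2 * (2 ^ j * y) ≤ 2 ^ i * y := by
        have : 2 ^ (j + 1) * y ≤ 2 ^ i * y := Nat.mul_le_mul_right y (Nat.pow_le_pow_right (by norm_num) h)
        rw [pow_succ] at this
        linarith [this, (by ring : 2 * (2 ^ j * y) = 2 ^ j * 2 * y)]
      omega
  have hcard : |Gs b y J0 J1 n| ≤ (S.card : ℝ) := by
    rw [hS, card_biUnion hdisj]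
    push_cast
    unfold Gs
    refine (abs_sum_le_sum_abs _ _).trans (sum_le_sum fun j _ => ?_)
    unfold Fp
    refine (abs_sum_le_sum_abs _ _).trans ?_
    refine (sum_le_sum fun p _ => hb j (n / p)).trans ?_
    rw [sum_const, nsmul_eq_mul, mul_one]
  have hSp : ∀ p ∈ S, p.Prime ∧ p ∣ n ∧ (N : ℝ) ^ (1 / 5 + e) < p := by
    intro p hp
    rw [hS, mem_biUnion] at hp
    obtain ⟨j, hj, hp⟩ := hp
    rw [mem_filter, Pool.Agent.H35.W.pb, mem_filter, mem_Ioc] at hp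
    refine ⟨hp.1.2, hp.2, lt_of_le_of_lt hy ?_⟩
    rw [mem_Ico] at hj
    have h1 : 2 ^ J0 * y ≤ 2 ^ j * y := Nat.mul_le_mul_right y (Nat.pow_le_pow_right (by norm_num) hj.1)
    exact_mod_cast lt_of_le_of_lt h1 hp.1.1.1
  have hcard4 : S.card ≤ 4 := by
    by_contra hcon
    push Not at hcon
    obtain ⟨T, hTS, hT5⟩ := exists_subset_card_eq (show 5 ≤ S.card by omega)
    have hdvd : ∏ p ∈ T, p ∣ n :=
      Finset.prod_primes_dvd n (fun p hp => (hSp p (hTS hp)).1.prime) (fun p hp => (hSp p (hTS hp)).2.1)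
    have hle : ∏ p ∈ T, p ≤ 16 * N := (Nat.le_of_dvd (by omega) hdvd).trans hn2
    have hle' : ∏ p ∈ T, (p : ℝ) ≤ 16 * N := by
      have h0 : ((∏ p ∈ T, p : ℕ) : ℝ) ≤ ((16 * N : ℕ) : ℝ) := Nat.cast_le.2 hle
      rw [Nat.cast_prod, Nat.cast_mul] at h0
      simpa using h0
    have hbase : 0 < (N : ℝ) ^ (1 / 5 + e) := Real.rpow_pos_of_pos hNpos _
    have hlt : ∏ _p ∈ T, (N : ℝ) ^ (1 / 5 + e) < ∏ p ∈ T, (p : ℝ) := by
      refine prod_lt_prod_of_nonempty (fun _ _ => hbase) (fun p hp => (hSp p (hTS hp)).2.2) ?_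
      rw [← card_pos]
      omega
    rw [prod_const, hT5] at hlt
    linarith
  calc |Gs b y J0 J1 n| ≤ (S.card : ℝ) := hcard
    _ ≤ 4 := by exact_mod_cast hcard4

private theorem Fin_sum (G : ℕ → ℝ) (M : ℝ) (u v : ℕ) (huv : u ≤ v) (h : ∀ n, 1 ≤ n → n ≤ v → |G n| ≤ M) :
    |∑ n ∈ Ioc u v, G n| ≤ M * ((v : ℝ) - u) := by
  refine (abs_sum_le_sum_abs _ _).trans ?_
  refine (sum_le_sum fun n hn => h n ?_ ?_).trans ?_
  · rw [mem_Ioc] at hn
    omega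
  · rw [mem_Ioc] at hn
    exact hn.2
  · rw [sum_const, Nat.card_Ioc, nsmul_eq_mul, Nat.cast_sub huv, mul_comm]

theorem gam_le (G : ℕ → ℝ) (M : ℝ) (H1 x : ℕ) (hM : 0 ≤ M) (h : ∀ n, 1 ≤ n → n ≤ x + H1 → |G n| ≤ M) : |gam G H1 x| ≤ M := by
  unfold gam
  rcases Nat.eq_zero_or_pos H1 with h0 | h0
  · subst h0
    simpa using hM
  · have h1 := Fin_sum G M x (x + H1) (by omega) h
    have h2 : (0 : ℝ) < H1 := by exact_mod_cast h0
    rw [abs_div, abs_of_pos h2, div_le_iff₀ h2]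
    refine h1.trans (le_of_eq ?_)
    push_cast
    ring

private theorem Fin_lip (G : ℕ → ℝ) (M : ℝ) (H1 x x' : ℕ) (hH : 1 ≤ H1) (hx : x ≤ x')
    (h : ∀ n, 1 ≤ n → n ≤ x' + H1 → |G n| ≤ M) :
    |gam G H1 x - gam G H1 x'| ≤ 2 * M * ((x' : ℝ) - x) / H1 := by
  have h2 : (0 : ℝ) < H1 := by exact_mod_cast hH
  have e1 : ∑ n ∈ Ioc x (x' + H1), G n = ∑ n ∈ Ioc x (x + H1), G n + ∑ n ∈ Ioc (x + H1) (x' + H1), G n :=
    (sum_Ioc_consecutive G (by omega) (by omega)).symm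
  have e2 : ∑ n ∈ Ioc x (x' + H1), G n = ∑ n ∈ Ioc x x', G n + ∑ n ∈ Ioc x' (x' + H1), G n :=
    (sum_Ioc_consecutive G (by omega) (by omega)).symm
  have e3 : gam G H1 x - gam G H1 x' = (∑ n ∈ Ioc x x', G n - ∑ n ∈ Ioc (x + H1) (x' + H1), G n) / H1 := by
    unfold gam
    rw [← sub_div]
    congr 1
    linarith
  have h3 := Fin_sum G M x x' hx (fun n hn1 hn2 => h n hn1 (by omega))
  have h4 := Fin_sum G M (x + H1) (x' + H1) (by omega) h
  rw [e3, abs_div, abs_of_pos h2]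
  refine div_le_div_of_nonneg_right ?_ h2.le
  refine (abs_sub _ _).trans ?_
  push_cast at h4
  have h5 : M * ((x' : ℝ) + H1 - (x + H1)) = M * ((x' : ℝ) - x) := by ring
  linarith

theorem gam_lip (G : ℕ → ℝ) (M : ℝ) (H1 x x' : ℕ) (hH : 1 ≤ H1) (hM : 0 ≤ M) (h : ∀ n, 1 ≤ n → n ≤ max x x' + H1 → |G n| ≤ M) :
    |gam G H1 x - gam G H1 x'| ≤ 2 * M * |(x : ℝ) - x'| / H1 := by
  rcases le_total x x' with hx | hx
  · have h1 := Fin_lip G M H1 x x' hH hx (fun n hn1 hn2 => h n hn1 (by rw [max_eq_right hx]; exact hn2))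
    have h2 : |(x : ℝ) - x'| = (x' : ℝ) - x := by
      rw [abs_sub_comm, abs_of_nonneg]
      have : (x : ℝ) ≤ x' := by exact_mod_cast hx
      linarith
    rw [h2]
    exact h1
  · have h1 := Fin_lip G M H1 x' x hH hx (fun n hn1 hn2 => h n hn1 (by rw [max_eq_left hx]; exact hn2))
    have h2 : |(x : ℝ) - x'| = (x : ℝ) - x' := by
      rw [abs_of_nonneg]
      have : (x' : ℝ) ≤ x := by exact_mod_cast hx
      linarith
    rw [h2, abs_sub_comm]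
    exact h1

end Pool.Agent.H31.EQ
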