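import Mathlib

/-!
# EQ Lev: decomposition into level sets

`V_j = V0/2^j`, `B_j = {t ∈ R : V_(j+1) < p t ≤ V_j}` (`j < J`), rest `{p t ≤ V_J}`: `∫_{B_j} p² q ≤ V_j² (Q1 + W Q0/V_(j+1)^4) = V_j² Q1 + 16 W Q0/V_j²`;
`∑_j V_j² ≤ 2 V0²`, `∑_{j<J} 1/V_j² = ∑ 4^j/V0² ≤ 4^J/(3 V0²)`.  (Induction on `J` from the top level is also possible: the statement for
`R' = {t ∈ R : p t ≤ V0/2}`, `V0/2`, `J - 1`.)
-/

set_option autoImplicit false

namespace Pool.Agent.H31.EQ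

open MeasureTheory

private theorem Lev_int {f : ℝ → ℝ} (hf : Continuous f) {T : ℝ} {R : Set ℝ} (hRT : R ⊆ Set.Icc (-T) T) :
    IntegrableOn f R :=
  (hf.continuousOn.integrableOn_compact isCompact_Icc).mono_set hRT

/-- the sharp form, by induction on `J` -/
private theorem Lev_ind (p q : ℝ → ℝ) (hp : Continuous p) (hq : Continuous q) (hp0 : ∀ t, 0 ≤ p t)
    (hq0 : ∀ t, 0 ≤ q t) (T Q0 Q1 W S : ℝ) (hQ1 : 0 ≤ Q1) (hW : 0 ≤ W) :
    ∀ (J : ℕ) (V0 : ℝ) (R : Set ℝ), MeasurableSet R → R ⊆ Set.Icc (-T) T → 0 < V0 → (∀ t ∈ R, p t ≤ V0) →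
    (∀ (B : Set ℝ) (V : ℝ), MeasurableSet B → B ⊆ R → 0 < V → (∀ t ∈ B, V ≤ p t) → volume.real B ≤ Q0 / V ^ 4) →
    (∀ B : Set ℝ, MeasurableSet B → B ⊆ R → ∫ t in B, q t ≤ Q1 + W * volume.real B) →
    (∫ t in R, q t ≤ S) →
    ∫ t in R, p t ^ 2 * q t ≤
      2 * V0 ^ 2 * Q1 + 16 / 3 * (W * Q0) * (4 ^ J - 1) / V0 ^ 2 + V0 ^ 2 / 4 ^ J * S := by
  have hpq : Continuous fun t => p t ^ 2 * q t := (hp.pow 2).mul hq
  -- the bound by the maximum
  have hmax : ∀ (V : ℝ) (B : Set ℝ), MeasurableSet B → B ⊆ Set.Icc (-T) T → 0 < V → (∀ t ∈ B, p t ≤ V) →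
      ∫ t in B, p t ^ 2 * q t ≤ V ^ 2 * ∫ t in B, q t := by
    intro V B hB hBT hV hpV
    rw [← integral_const_mul]
    refine setIntegral_mono_on (Lev_int hpq hBT) (Lev_int (hq.const_mul _) hBT) hB fun t ht => ?_
    exact mul_le_mul_of_nonneg_right (pow_le_pow_left₀ (hp0 t) (hpV t ht) 2) (hq0 t)
  intro J
  induction J with
  | zero =>
    intro V0 R hR hRT hV0 hV hvol hdual htot
    have h1 := hmax V0 R hR hRT hV0 hV
    have h2 : V0 ^ 2 * ∫ t in R, q t ≤ V0 ^ 2 * S := mul_le_mul_of_nonneg_left htot (by positivity)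
    have h3 : 0 ≤ 2 * V0 ^ 2 * Q1 := by positivity
    rw [pow_zero, sub_self, mul_zero, zero_div, div_one]
    linarith
  | succ J ih =>
    intro V0 R hR hRT hV0 hV hvol hdual htot
    obtain ⟨R', hR'⟩ : ∃ R' : Set ℝ, R' = R ∩ {t | p t ≤ V0 / 2} := ⟨_, rfl⟩
    obtain ⟨B, hBd⟩ : ∃ B : Set ℝ, B = R ∩ {t | V0 / 2 < p t} := ⟨_, rfl⟩
    have hR'm : MeasurableSet R' := by
      rw [hR']
      exact hR.inter (measurableSet_le hp.measurable measurable_const)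
    have hBm : MeasurableSet B := by
      rw [hBd]
      exact hR.inter (measurableSet_lt measurable_const hp.measurable)
    have hR's : R' ⊆ R := by
      rw [hR']
      exact Set.inter_subset_left
    have hBs : B ⊆ R := by
      rw [hBd]
      exact Set.inter_subset_left
    have hdis : Disjoint R' B := by
      rw [Set.disjoint_left]
      intro t h1 h2
      rw [hR'] at h1
      rw [hBd] at h2
      have h3 : p t ≤ V0 / 2 := h1.2
      have h4 : V0 / 2 < p t := h2.2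
      linarith
    have hun : R' ∪ B = R := by
      rw [hR', hBd, ← Set.inter_union_distrib_left]
      have : {t | p t ≤ V0 / 2} ∪ {t | V0 / 2 < p t} = Set.univ := by
        ext t
        simp only [Set.mem_union, Set.mem_ofPred_eq, Set.mem_univ, iff_true]
        exact le_or_gt _ _
      rw [this, Set.inter_univ]
    have hsplit : ∫ t in R, p t ^ 2 * q t = (∫ t in R', p t ^ 2 * q t) + ∫ t in B, p t ^ 2 * q t := by
      rw [← hun]
      exact setIntegral_union hdis hBm (Lev_int hpq (hR's.trans hRT)) (Lev_int hpq (hBs.trans hRT))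
    have h1 := ih (V0 / 2) R' hR'm (hR's.trans hRT) (by positivity)
      (fun t ht => by rw [hR'] at ht; exact ht.2)
      (fun C V hC hCs hVp hVC => hvol C V hC (hCs.trans hR's) hVp hVC)
      (fun C hC hCs => hdual C hC (hCs.trans hR's))
      (le_trans (setIntegral_mono_set (Lev_int hq hRT) (Filter.Eventually.of_forall hq0)
        (Filter.Eventually.of_forall hR's)) htot)
    have h2 : volume.real B ≤ Q0 / (V0 / 2) ^ 4 :=
      hvol B (V0 / 2) hBm hBs (by positivity) fun t ht => by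
        rw [hBd] at ht
        exact (show V0 / 2 < p t from ht.2).le
    have h3 := hdual B hBm hBs
    have h4 := hmax V0 B hBm (hBs.trans hRT) hV0 fun t ht => hV t (hBs ht)
    have h5 : W * volume.real B ≤ W * (Q0 / (V0 / 2) ^ 4) := mul_le_mul_of_nonneg_left h2 hW
    have h6 : ∫ t in B, p t ^ 2 * q t ≤ V0 ^ 2 * (Q1 + W * (Q0 / (V0 / 2) ^ 4)) :=
      h4.trans (mul_le_mul_of_nonneg_left (by linarith) (by positivity))
    have e1 : V0 ^ 2 * (Q1 + W * (Q0 / (V0 / 2) ^ 4)) = V0 ^ 2 * Q1 + 16 * (W * Q0) / V0 ^ 2 := by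
      field_simp
      ring
    have e2 : 2 * (V0 / 2) ^ 2 * Q1 + 16 / 3 * (W * Q0) * (4 ^ J - 1) / (V0 / 2) ^ 2 +
        (V0 / 2) ^ 2 / 4 ^ J * S = V0 ^ 2 * Q1 / 2 + 16 / 3 * (W * Q0) * (4 ^ (J + 1) - 4) / V0 ^ 2 +
        V0 ^ 2 / 4 ^ (J + 1) * S := by
      rw [pow_succ]
      field_simp
      ring
    rw [hsplit]
    rw [e1] at h6
    rw [e2] at h1
    have e3 : 16 / 3 * (W * Q0) * (4 ^ (J + 1) - 1) / V0 ^ 2 =
        16 / 3 * (W * Q0) * (4 ^ (J + 1) - 4) / V0 ^ 2 + 16 * (W * Q0) / V0 ^ 2 := by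
      rw [← add_div]
      congr 1
      ring
    rw [e3]
    have h7 : 0 ≤ V0 ^ 2 * Q1 := by positivity
    linarith

theorem lev (p q : ℝ → ℝ) (hp : Continuous p) (hq : Continuous q) (hp0 : ∀ t, 0 ≤ p t) (hq0 : ∀ t, 0 ≤ q t)
    (T V0 Q0 Q1 W S : ℝ) (J : ℕ) (R : Set ℝ) (hR : MeasurableSet R) (hRT : R ⊆ Set.Icc (-T) T) (hV0 : 0 < V0)
    (hQ0 : 0 ≤ Q0) (hQ1 : 0 ≤ Q1) (hW : 0 ≤ W) (hS : 0 ≤ S) (hV : ∀ t ∈ R, p t ≤ V0)
    (hvol : ∀ (B : Set ℝ) (V : ℝ), MeasurableSet B → B ⊆ R → 0 < V → (∀ t ∈ B, V ≤ p t) → volume.real B ≤ Q0 / V ^ 4)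
    (hdual : ∀ B : Set ℝ, MeasurableSet B → B ⊆ R → ∫ t in B, q t ≤ Q1 + W * volume.real B)
    (htot : ∫ t in R, q t ≤ S) :
    ∫ t in R, p t ^ 2 * q t ≤ 2 * V0 ^ 2 * Q1 + 6 * (W * Q0) * 4 ^ J / V0 ^ 2 + V0 ^ 2 / 4 ^ J * S := by
  have h := Lev_ind p q hp hq hp0 hq0 T Q0 Q1 W S hQ1 hW J V0 R hR hRT hV0 hV hvol hdual htot
  have h1 : 16 / 3 * (W * Q0) * (4 ^ J - 1) / V0 ^ 2 ≤ 6 * (W * Q0) * 4 ^ J / V0 ^ 2 := by
    refine div_le_div_of_nonneg_right ?_ (by positivity)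
    have h2 : 0 ≤ W * Q0 := mul_nonneg hW hQ0
    have h3 : 0 ≤ W * Q0 * 4 ^ J := by positivity
    nlinarith
  linarith

end Pool.Agent.H31.EQ
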