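import Pool.Agent.H31.EQ.Vol
import Pool.Agent.H31.EQ.DualK
import Pool.Agent.H31.EQ.Lev
import Pool.Agent.H53.MID.VkPr

/-!
# EQ PInt: the mean square of the product of the two polynomials

`L = log X`, `R = {L^K' ≤ |t| ≤ T}`, `p t = ‖Pl P d l t‖`, `q t = ‖Kl b K1 K2 a t‖^2` (`lev`), `K' ` and `V0 = P/L^K`, `K = A + 2`, from `vk_pr hVK K B (1/5)` (`N = X`; `P ≤ X`,
`|t| ≤ T ≤ X^3`).  `Q0 = (2T + 8P²(1+log(4P²))) 2P²` (`vol_le`), `Q1 = C L² K2²`, `W = C L² √T K2` (`dual_k`, `T ≤ X`), `S = (2T + 2 K2 (1+log K2)) K2` (`mv_k`, `R ⊆ [-T,T]`).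
`J`: least with `V0²/4^J ≤ V1² := P² X^(-η)/(1 + P/H)`; so `4^J ≤ 4 V0²/V1²` (`V0² ≥ V1²` for large `X`).
* `2 V0² Q1 = 2 C P² K2² L^(2-2K) ≤ 512 C X² L^(2-2K)`;
* `V0²/4^J S ≤ P² X^(-η)/(1+P/H) (2T + 4 K2 L) K2`; `P²/(1+P/H) ≤ P H` and `≤ P²`: `≤ 2 T H (P K2) X^(-η) + 4 (P K2)² L X^(-η) ≤ 32 X² L^C4 X^(-η) + 1024 X² L X^(-η)`;
* `6 W Q0 4^J/V0² ≤ 24 W Q0/V1² = 48 C L² √T K2 (2T + 8P²(1+log(4P²))) X^η (1 + P/H)`; `K2 (1 + P/H) ≤ 16 X (1/P + 1/H) ≤ 32 X^(4/5-η)`, `T ≤ X^(4/5-η) L^C4`,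
  `P² ≤ 16 X/H ≤ 16 X^(4/5-η)`: `≤ C' L^C'' X^(3/2 (4/5-η) + 4/5 - η + η) = C' L^C'' X^(2 - 3η/2)`.
(If `T < 1`... `1 ≤ T` is assumed; `η ≤ 1/10` may be assumed since the hypotheses get stronger with `η`: or note that they are contradictory for `η > 2/15`: `P² H ≥ X^(3/5+3η)`.)
-/

set_option autoImplicit false

namespace Pool.Agent.H31.EQ

open Finset MeasureTheory
open Pool.Agent.H91.PK (ee)
open Pool.Agent.H35.W (pb)
open Pool.Agent.H53.MID (Fp Pl Kl VKp)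

private theorem PInt_contP (P d l : ℕ) : Continuous fun t : ℝ => ‖Pl P d l t‖ := by
  unfold Pl
  refine continuous_norm.comp (continuous_finsetSum _ fun p _ => ?_)
  unfold ee
  fun_prop

private theorem PInt_contK (b : ℕ → ℝ) (K1 K2 : ℕ) (a : ℝ) : Continuous fun t : ℝ => ‖Kl b K1 K2 a t‖ ^ 2 := by
  unfold Kl
  refine (continuous_norm.comp (continuous_finsetSum _ fun p _ => ?_)).pow 2
  unfold ee
  fun_prop

private theorem PInt_J (r : ℝ) (hr : 1 ≤ r) : ∃ J : ℕ, r ≤ 4 ^ J ∧ (4 : ℝ) ^ J ≤ 4 * r := by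
  obtain ⟨n, h1, h2⟩ := exists_nat_pow_near hr (show (1 : ℝ) < 4 by norm_num)
  refine ⟨n + 1, h2.le, ?_⟩
  rw [pow_succ]
  linarith

private theorem PInt_t1 (C L X P K2 : ℝ) (A : ℕ) (hC : 1 ≤ C) (hL : 1536 * C ≤ L) (hX : 0 < X)
    (hP : 0 ≤ P) (hK : 0 ≤ K2) (hPK : K2 * P ≤ 16 * X) :
    2 * (P / L ^ (A + 2)) ^ 2 * (C * L ^ 2 * K2 ^ 2) ≤ X ^ 2 / (3 * L ^ A) := by
  have hL1 : 1 ≤ L := by linarith
  have hL0 : 0 < L := by linarith
  have h1 : (K2 * P) ^ 2 ≤ (16 * X) ^ 2 := pow_le_pow_left₀ (mul_nonneg hK hP) hPK 2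
  have h2 : 2 * (P / L ^ (A + 2)) ^ 2 * (C * L ^ 2 * K2 ^ 2) = 2 * C * (K2 * P) ^ 2 * L ^ 2 / (L ^ (A + 2)) ^ 2 := by
    rw [div_pow]
    ring
  rw [h2]
  have h3 : 2 * C * (K2 * P) ^ 2 * L ^ 2 / (L ^ (A + 2)) ^ 2 ≤ 2 * C * (16 * X) ^ 2 * L ^ 2 / (L ^ (A + 2)) ^ 2 := by
    apply div_le_div_of_nonneg_right _ (by positivity)
    apply mul_le_mul_of_nonneg_right _ (by positivity)
    exact mul_le_mul_of_nonneg_left h1 (by linarith)
  refine h3.trans ?_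
  rw [div_le_div_iff₀ (by positivity) (by positivity)]
  have h4 : (L ^ (A + 2)) ^ 2 = L ^ A * L ^ 2 * L ^ (A + 2) := by ring
  rw [h4]
  have h5 : L ≤ L ^ (A + 2) := le_self_pow₀ hL1 (by omega)
  have h6 : 1536 * C ≤ L ^ (A + 2) := hL.trans h5
  have h7 : 0 ≤ X ^ 2 * (L ^ A * L ^ 2) := by positivity
  calc 2 * C * (16 * X) ^ 2 * L ^ 2 * (3 * L ^ A) = X ^ 2 * (L ^ A * L ^ 2) * (1536 * C) := by ring
    _ ≤ X ^ 2 * (L ^ A * L ^ 2) * L ^ (A + 2) := mul_le_mul_of_nonneg_left h6 h7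
    _ = X ^ 2 * (L ^ A * L ^ 2 * L ^ (A + 2)) := by ring

private theorem PInt_t3 (L X P K2 H T E : ℝ) (A C4 : ℕ) (hL : 1 ≤ L) (hX : 0 < X) (hP : 0 < P) (hK : 0 ≤ K2)
    (hH : 0 < H) (hT : 0 ≤ T) (hE : 0 < E) (hPK : K2 * P ≤ 16 * X) (hTH : T * H ≤ X * L ^ C4)
    (hEL : 3168 * L ^ (C4 + 1 + A) ≤ E) :
    P ^ 2 / (E * (1 + P / H)) * ((2 * T + 4 * K2 * L) * K2) ≤ X ^ 2 / (3 * L ^ A) := by
  have hL0 : 0 < L := by linarith
  have hq : 0 < 1 + P / H := by positivity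
  have hPH : P / (1 + P / H) ≤ H := by
    rw [div_le_iff₀ hq]
    have : H * (1 + P / H) = H + P := by field_simp
    rw [this]
    linarith
  have hP1 : P / (1 + P / H) ≤ P := by
    rw [div_le_iff₀ hq]
    have : 0 ≤ P * (P / H) := by positivity
    nlinarith
  have h0 : 0 ≤ P / (1 + P / H) := by positivity
  have h1 : P ^ 2 / (E * (1 + P / H)) * ((2 * T + 4 * K2 * L) * K2) =
      (2 * (K2 * P) * (T * (P / (1 + P / H))) + 4 * L * (K2 * P) * (K2 * (P / (1 + P / H)))) / E := by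
    field_simp
  rw [h1]
  have h2 : 2 * (K2 * P) * (T * (P / (1 + P / H))) ≤ 2 * (16 * X) * (X * L ^ C4) := by
    apply mul_le_mul (by linarith) _ (by positivity) (by positivity)
    exact (mul_le_mul_of_nonneg_left hPH hT).trans hTH
  have h3 : 4 * L * (K2 * P) * (K2 * (P / (1 + P / H))) ≤ 4 * L * (16 * X) * (16 * X) := by
    apply mul_le_mul _ _ (by positivity) (by positivity)
    · exact mul_le_mul_of_nonneg_left hPK (by positivity)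
    · exact (mul_le_mul_of_nonneg_left hP1 hK).trans hPK
  have h4 : L ^ C4 ≤ L ^ (C4 + 1) := pow_le_pow_right₀ hL (by omega)
  have h5 : L ≤ L ^ (C4 + 1) := le_self_pow₀ hL (by omega)
  have h6 : 2 * (K2 * P) * (T * (P / (1 + P / H))) + 4 * L * (K2 * P) * (K2 * (P / (1 + P / H))) ≤
      1056 * X ^ 2 * L ^ (C4 + 1) := by
    have a1 : 2 * (16 * X) * (X * L ^ C4) ≤ 32 * X ^ 2 * L ^ (C4 + 1) := by
      calc 2 * (16 * X) * (X * L ^ C4) = 32 * X ^ 2 * L ^ C4 := by ring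
        _ ≤ 32 * X ^ 2 * L ^ (C4 + 1) := mul_le_mul_of_nonneg_left h4 (by positivity)
    have a2 : 4 * L * (16 * X) * (16 * X) ≤ 1024 * X ^ 2 * L ^ (C4 + 1) := by
      calc 4 * L * (16 * X) * (16 * X) = 1024 * X ^ 2 * L := by ring
        _ ≤ 1024 * X ^ 2 * L ^ (C4 + 1) := mul_le_mul_of_nonneg_left h5 (by positivity)
    linarith
  refine (div_le_div_of_nonneg_right h6 hE.le).trans ?_
  rw [div_le_div_iff₀ hE (by positivity)]
  calc 1056 * X ^ 2 * L ^ (C4 + 1) * (3 * L ^ A) = X ^ 2 * (3168 * L ^ (C4 + 1 + A)) := by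
        rw [pow_add L (C4 + 1) A]
        ring
    _ ≤ X ^ 2 * E := mul_le_mul_of_nonneg_left hEL (by positivity)

private theorem PInt_t2 (C L X P K2 H T E U : ℝ) (A C4 : ℕ) (hC : 1 ≤ C) (hL : 1 ≤ L) (hX : 0 < X) (hP : 0 < P)
    (hK : 0 ≤ K2) (hH : 0 < H) (hT : 0 ≤ T) (hE : 0 < E) (hU : 0 < U) (hK1 : K2 + K2 * P / H ≤ 32 * U)
    (hP2 : P ^ 2 ≤ 16 * U) (hTU : T ≤ U * L ^ C4) (hUE : U ^ 2 * Real.sqrt U * E * E ≤ X ^ 2)
    (hEL : 2368512 * C * L ^ (2 * C4 + 3 + A) ≤ E) (lg : ℝ) (hlg : lg ≤ 4 * L) :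
    24 * (C * L ^ 2 * Real.sqrt T * K2) * ((2 * T + 8 * P ^ 2 * lg) * (2 * P ^ 2)) / (P ^ 2 / (E * (1 + P / H)))
      ≤ X ^ 2 / (3 * L ^ A) := by
  have hL0 : 0 < L := by linarith
  have hC0 : 0 < C := by linarith
  have hq : 0 < 1 + P / H := by positivity
  have hsT : Real.sqrt T ≤ Real.sqrt U * L ^ C4 := by
    rw [Real.sqrt_le_left (by positivity)]
    rw [mul_pow, Real.sq_sqrt hU.le]
    have h1 : L ^ C4 ≤ (L ^ C4) ^ 2 := le_self_pow₀ (one_le_pow₀ hL) (by norm_num)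
    exact hTU.trans (mul_le_mul_of_nonneg_left h1 hU.le)
  have e1 : 24 * (C * L ^ 2 * Real.sqrt T * K2) * ((2 * T + 8 * P ^ 2 * lg) * (2 * P ^ 2)) / (P ^ 2 / (E * (1 + P / H)))
      = 48 * C * L ^ 2 * E * (Real.sqrt T * (K2 + K2 * P / H) * (2 * T + 8 * P ^ 2 * lg)) := by
    field_simp
    ring
  rw [e1]
  have h2 : 2 * T + 8 * P ^ 2 * lg ≤ 514 * U * L ^ (C4 + 1) := by
    have b1 : L ^ C4 ≤ L ^ (C4 + 1) := pow_le_pow_right₀ hL (by omega)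
    have b2 : L ≤ L ^ (C4 + 1) := le_self_pow₀ hL (by omega)
    have b3 : 8 * P ^ 2 * lg ≤ 8 * P ^ 2 * (4 * L) := mul_le_mul_of_nonneg_left hlg (by positivity)
    have b4 : 8 * P ^ 2 * (4 * L) ≤ 512 * U * L ^ (C4 + 1) := by
      calc 8 * P ^ 2 * (4 * L) = 32 * (P ^ 2 * L) := by ring
        _ ≤ 32 * (16 * U * L ^ (C4 + 1)) := by
          apply mul_le_mul_of_nonneg_left _ (by norm_num)
          exact mul_le_mul hP2 b2 hL0.le (by positivity)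
        _ = 512 * U * L ^ (C4 + 1) := by ring
    have b5 : 2 * T ≤ 2 * U * L ^ (C4 + 1) := by
      have : U * L ^ C4 ≤ U * L ^ (C4 + 1) := mul_le_mul_of_nonneg_left b1 hU.le
      linarith
    linarith
  have hsT0 := Real.sqrt_nonneg T
  have hKK : 0 ≤ K2 + K2 * P / H := by positivity
  have h3 : Real.sqrt T * (K2 + K2 * P / H) ≤ Real.sqrt U * L ^ C4 * (32 * U) :=
    mul_le_mul hsT hK1 hKK (by positivity)
  have h4 : Real.sqrt T * (K2 + K2 * P / H) * (2 * T + 8 * P ^ 2 * lg) ≤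
      Real.sqrt U * L ^ C4 * (32 * U) * (514 * U * L ^ (C4 + 1)) := by
    refine (mul_le_mul_of_nonneg_left h2 (mul_nonneg hsT0 hKK)).trans ?_
    exact mul_le_mul_of_nonneg_right h3 (by positivity)
  have h5 : 48 * C * L ^ 2 * E * (Real.sqrt T * (K2 + K2 * P / H) * (2 * T + 8 * P ^ 2 * lg)) ≤
      48 * C * L ^ 2 * E * (Real.sqrt U * L ^ C4 * (32 * U) * (514 * U * L ^ (C4 + 1))) :=
    mul_le_mul_of_nonneg_left h4 (by positivity)
  refine h5.trans ?_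
  rw [le_div_iff₀ (by positivity)]
  have h6 : 48 * C * L ^ 2 * E * (Real.sqrt U * L ^ C4 * (32 * U) * (514 * U * L ^ (C4 + 1))) * (3 * L ^ A) =
      (2368512 * C * L ^ (2 * C4 + 3 + A)) * (U ^ 2 * Real.sqrt U * E) := by
    have : L ^ (2 * C4 + 3 + A) = L ^ 2 * L ^ C4 * L ^ (C4 + 1) * L ^ A := by
      rw [← pow_add, ← pow_add, ← pow_add]
      congr 1
      omega
    rw [this]
    ring
  rw [h6]
  calc (2368512 * C * L ^ (2 * C4 + 3 + A)) * (U ^ 2 * Real.sqrt U * E)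
      ≤ E * (U ^ 2 * Real.sqrt U * E) := mul_le_mul_of_nonneg_right hEL (by positivity)
    _ = U ^ 2 * Real.sqrt U * E * E := by ring
    _ ≤ X ^ 2 := hUE

theorem p_int (hVK : VKp) (η : ℝ) (hη : 0 < η) (A B C4 : ℕ) : ∃ K' X0 : ℕ, ∀ X : ℕ, X0 ≤ X →
    ∀ (P K1 K2 d l : ℕ) (b : ℕ → ℝ) (H a T : ℝ), (X : ℝ) ^ (1 / 5 + η) ≤ P → (X : ℝ) ^ (1 / 5 + η) ≤ H →
    (P : ℝ) ^ 2 * H ≤ 16 * X → K2 * P ≤ 16 * X → 1 ≤ d → (d : ℝ) ≤ Real.log X ^ B → (∀ k, |b k| ≤ 1) →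
    1 ≤ T → T * H ≤ X * Real.log X ^ C4 →
    ∫ t in {t : ℝ | Real.log X ^ K' ≤ |t| ∧ |t| ≤ T}, ‖Pl P d l t‖ ^ 2 * ‖Kl b K1 K2 a t‖ ^ 2
      ≤ (X : ℝ) ^ 2 / Real.log X ^ A := by
  obtain ⟨C, hC1, hdual⟩ := dual_k
  obtain ⟨K', X1, hvk⟩ := Pool.Agent.H53.MID.vk_pr hVK (A + 2) B (1 / 5) (by norm_num)
  obtain ⟨X2, hX2⟩ := Pool.Agent.H80.LV.log_ge (max (1536 * C) 4)
  obtain ⟨X3, hX3⟩ := Pool.Agent.H80.LV.log_pow_le (η / 2) (2368512 * C) (by linarith) (by linarith) (2 * C4 + 3 + A)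
  obtain ⟨X4, hX4⟩ := Pool.Agent.H80.LV.log_pow_le (η / 2) 1 (by linarith) one_pos (2 * (A + 2))
  obtain ⟨X5, hX5⟩ := Pool.Agent.H80.LV.log_pow_le (1 / 5) 1 (by norm_num) one_pos C4
  obtain ⟨X6, hX6⟩ := Pool.Agent.H80.LV.pow_ge (1 / 5) 16 (by norm_num)
  refine ⟨K', max (max (max X1 X2) (max X3 X4)) (max (max X5 X6) 3), ?_⟩
  intro X hX P K1 K2 d l b H a T hP hH hPH hK hd hdB hb hT hTH
  simp only [max_le_iff] at hX
  obtain ⟨⟨⟨g1, g2⟩, ⟨g3, g4⟩⟩, ⟨g5, g6⟩, g7⟩ := hX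
  have hvk' := hvk X g1
  have hL := hX2 X g2
  have hE1 := hX3 X g3
  have hE2 := hX4 X g4
  have hL5 := hX5 X g5
  have h16 := hX6 X g6
  have hL4 : 4 ≤ Real.log X := (le_max_right _ _).trans hL
  have hLC : 1536 * C ≤ Real.log X := (le_max_left _ _).trans hL
  set L := Real.log X with hL_def
  have hL1 : 1 ≤ L := by linarith
  have hL0 : 0 < L := by linarith
  have hXr : (3 : ℝ) ≤ X := by exact_mod_cast g7
  have hX0 : (0 : ℝ) < X := by linarith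
  have hX1r : (1 : ℝ) ≤ X := by linarith
  have hpow : (X : ℝ) ^ (1 / 5 : ℝ) ≤ (X : ℝ) ^ (1 / 5 + η) :=
    Real.rpow_le_rpow_of_exponent_le hX1r (by linarith)
  have hP5 : (X : ℝ) ^ (1 / 5 : ℝ) ≤ P := hpow.trans hP
  have hH5 : (X : ℝ) ^ (1 / 5 : ℝ) ≤ H := hpow.trans hH
  have hP16 : (16 : ℝ) ≤ P := h16.trans hP5
  have hH16 : (16 : ℝ) ≤ H := h16.trans hH5
  have hP0 : (0 : ℝ) < P := by linarith
  have hH0 : (0 : ℝ) < H := by linarith
  have hKr : (K2 : ℝ) * P ≤ 16 * X := by exact_mod_cast hK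
  have hK0 : (0 : ℝ) ≤ K2 := Nat.cast_nonneg _
  have hK2X : K2 ≤ X := by
    have : (K2 : ℝ) ≤ X := by nlinarith
    exact_mod_cast this
  have hP2X : (P : ℝ) ^ 2 ≤ X := by nlinarith [sq_nonneg (P : ℝ)]
  have hPX : P ≤ X := by
    have : (P : ℝ) ≤ X := by nlinarith
    exact_mod_cast this
  have hT0 : 0 < T := by linarith
  have hTX : T ≤ X := by
    have h1 : L ^ C4 ≤ H := by
      rw [one_mul] at hL5
      exact hL5.trans hH5
    have h2 : T * H ≤ X * H := hTH.trans (mul_le_mul_of_nonneg_left h1 hX0.le)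
    exact le_of_mul_le_mul_right h2 hH0
  -- the region
  set R : Set ℝ := {t : ℝ | L ^ K' ≤ |t| ∧ |t| ≤ T} with hR_def
  have hRm : MeasurableSet R :=
    (measurableSet_le measurable_const continuous_abs.measurable).inter
      (measurableSet_le continuous_abs.measurable measurable_const)
  have hRT : R ⊆ Set.Icc (-T) T := fun t ht => abs_le.1 ht.2
  have hVR : ∀ t ∈ R, ‖Pl P d l t‖ ≤ P / L ^ (A + 2) := by
    intro t ht
    refine hvk' P d l t hP5 hPX hd hdB ht.1 (ht.2.trans (hTX.trans ?_))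
    exact le_self_pow₀ hX1r (by norm_num)
  -- the parameters
  set E : ℝ := (X : ℝ) ^ (η / 2) with hE_def
  have hE0 : 0 < E := Real.rpow_pos_of_pos hX0 _
  set U : ℝ := (X : ℝ) ^ (4 / 5 - η) with hU_def
  have hU0 : 0 < U := Real.rpow_pos_of_pos hX0 _
  have hXH : X / H ≤ U := by
    rw [div_le_iff₀ hH0]
    calc (X : ℝ) = U * (X : ℝ) ^ (1 / 5 + η) := by
          rw [hU_def, ← Real.rpow_add hX0]
          rw [show (4 / 5 - η + (1 / 5 + η) : ℝ) = 1 by ring, Real.rpow_one]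
      _ ≤ U * H := mul_le_mul_of_nonneg_left hH hU0.le
  have hXP : X / P ≤ U := by
    rw [div_le_iff₀ hP0]
    calc (X : ℝ) = U * (X : ℝ) ^ (1 / 5 + η) := by
          rw [hU_def, ← Real.rpow_add hX0]
          rw [show (4 / 5 - η + (1 / 5 + η) : ℝ) = 1 by ring, Real.rpow_one]
      _ ≤ U * P := mul_le_mul_of_nonneg_left hP hU0.le
  have hUE : U ^ 2 * Real.sqrt U * E * E ≤ (X : ℝ) ^ 2 := by
    have e1 : U ^ 2 = (X : ℝ) ^ ((4 / 5 - η) * 2) := by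
      rw [hU_def, ← Real.rpow_natCast, ← Real.rpow_mul hX0.le]
      norm_num
    have e2 : Real.sqrt U = (X : ℝ) ^ ((4 / 5 - η) * (1 / 2)) := by
      rw [hU_def, Real.sqrt_eq_rpow, ← Real.rpow_mul hX0.le]
    rw [e1, e2, hE_def, ← Real.rpow_add hX0, ← Real.rpow_add hX0, ← Real.rpow_add hX0, ← Real.rpow_natCast]
    apply Real.rpow_le_rpow_of_exponent_le hX1r
    push_cast
    linarith
  have hr1 : 1 ≤ (P / L ^ (A + 2)) ^ 2 / ((P : ℝ) ^ 2 / (E * (1 + P / H))) := by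
    have e1 : (P / L ^ (A + 2)) ^ 2 / ((P : ℝ) ^ 2 / (E * (1 + P / H))) = E * (1 + P / H) / L ^ (2 * (A + 2)) := by
      rw [div_pow, ← pow_mul, mul_comm (A + 2) 2]
      field_simp
    rw [e1, le_div_iff₀ (by positivity), one_mul]
    rw [one_mul] at hE2
    have h3 : 0 ≤ (P : ℝ) / H := by positivity
    nlinarith
  obtain ⟨J, hJ1, hJ2⟩ := PInt_J _ hr1
  set V0 : ℝ := P / L ^ (A + 2) with hV0_def
  have hV00 : 0 < V0 := by positivity
  set V1 : ℝ := (P : ℝ) ^ 2 / (E * (1 + P / H)) with hV1_def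
  have hV10 : 0 < V1 := by positivity
  -- level sets
  have hlev := lev (fun t => ‖Pl P d l t‖) (fun t => ‖Kl b K1 K2 a t‖ ^ 2) (PInt_contP P d l) (PInt_contK b K1 K2 a)
    (fun t => norm_nonneg _) (fun t => by positivity) T V0
    ((2 * T + 8 * (P : ℝ) ^ 2 * (1 + Real.log (4 * (P : ℝ) ^ 2))) * (2 * (P : ℝ) ^ 2))
    (C * L ^ 2 * (K2 : ℝ) ^ 2) (C * L ^ 2 * Real.sqrt T * K2) ((2 * T + 2 * K2 * (1 + Real.log K2)) * K2) J R hRm hRT hV00
    (by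
      have : 0 ≤ Real.log (4 * (P : ℝ) ^ 2) := Real.log_nonneg (by nlinarith)
      positivity)
    (by positivity) (by positivity)
    (by
      have : 0 ≤ Real.log K2 := Real.log_natCast_nonneg K2
      positivity)
    hVR
    (fun B' V hB hBR hV hBV => vol_le P d l V T (by
      have : (1 : ℝ) ≤ P := by linarith
      exact_mod_cast this) hV hT0.le B' hB (hBR.trans hRT) hBV)
    (fun B' hB hBR => by
      refine (hdual X K1 K2 b a T B' g7 hK2X hT hTX hB (hBR.trans hRT) hb).trans (le_of_eq ?_)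
      ring)
    (by
      refine le_trans ?_ (mv_k K1 K2 b a T hT0.le hb)
      exact setIntegral_mono_set ((PInt_contK b K1 K2 a).continuousOn.integrableOn_Icc)
        (Filter.Eventually.of_forall fun t => by positivity) (Filter.Eventually.of_forall hRT))
  refine hlev.trans ?_
  -- the three terms
  have ht1 := PInt_t1 C L X P K2 A hC1 hLC hX0 hP0.le hK0 hKr
  have ht3 := PInt_t3 L X P K2 H T E A C4 hL1 hX0 hP0 hK0 hH0 hT0.le hE0 hKr hTH (by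
    refine le_trans ?_ hE1
    have h1 : L ^ (C4 + 1 + A) ≤ L ^ (2 * C4 + 3 + A) := pow_le_pow_right₀ hL1 (by omega)
    have h2 : 0 < L ^ (2 * C4 + 3 + A) := by positivity
    nlinarith)
  have hlg : 1 + Real.log (4 * (P : ℝ) ^ 2) ≤ 4 * L := by
    have h1 : Real.log (4 * (P : ℝ) ^ 2) ≤ Real.log (X * X) := by
      apply Real.log_le_log (by positivity)
      have : (4 : ℝ) ≤ X := by
        have h2 : (16 : ℝ) ≤ (X : ℝ) ^ (1 / 5 : ℝ) := h16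
        have h3 : (X : ℝ) ^ (1 / 5 : ℝ) ≤ (X : ℝ) ^ (1 : ℝ) := Real.rpow_le_rpow_of_exponent_le hX1r (by norm_num)
        rw [Real.rpow_one] at h3
        linarith
      nlinarith
    have h5 : Real.log ((X : ℝ) * X) = Real.log X + Real.log X := Real.log_mul hX0.ne' hX0.ne'
    rw [h5] at h1
    linarith
  have ht2 := PInt_t2 C L X P K2 H T E U A C4 hC1 hL1 hX0 hP0 hK0 hH0 hT0.le hE0 hU0 (by
      have h1 : (K2 : ℝ) ≤ 16 * (X / P) := by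
        rw [mul_div_assoc', le_div_iff₀ hP0]
        exact hKr
      have h2 : (K2 : ℝ) * P / H ≤ 16 * (X / H) := by
        rw [mul_div_assoc']
        exact div_le_div_of_nonneg_right hKr hH0.le
      linarith)
    (by
      have h1 : (P : ℝ) ^ 2 ≤ 16 * (X / H) := by
        rw [mul_div_assoc', le_div_iff₀ hH0]
        exact hPH
      linarith)
    (by
      have h1 : T ≤ X / H * L ^ C4 := by
        rw [div_mul_eq_mul_div, le_div_iff₀ hH0]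
        exact hTH
      exact h1.trans (mul_le_mul_of_nonneg_right hXH (by positivity)))
    hUE hE1 _ hlg
  have s1 : 6 * (C * L ^ 2 * Real.sqrt T * K2 * ((2 * T + 8 * (P : ℝ) ^ 2 * (1 + Real.log (4 * (P : ℝ) ^ 2))) * (2 * (P : ℝ) ^ 2))) * 4 ^ J / V0 ^ 2
      ≤ 24 * (C * L ^ 2 * Real.sqrt T * K2) * ((2 * T + 8 * (P : ℝ) ^ 2 * (1 + Real.log (4 * (P : ℝ) ^ 2))) * (2 * (P : ℝ) ^ 2)) / V1 := by
    have h0 : 0 ≤ Real.log (4 * (P : ℝ) ^ 2) := Real.log_nonneg (by nlinarith)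
    have h1 : 0 ≤ C * L ^ 2 * Real.sqrt T * K2 * ((2 * T + 8 * (P : ℝ) ^ 2 * (1 + Real.log (4 * (P : ℝ) ^ 2))) * (2 * (P : ℝ) ^ 2)) := by
      positivity
    have h2 : (4 : ℝ) ^ J / V0 ^ 2 ≤ 4 / V1 := by
      rw [div_le_div_iff₀ (by positivity) hV10]
      calc (4 : ℝ) ^ J * V1 ≤ 4 * (V0 ^ 2 / V1) * V1 := mul_le_mul_of_nonneg_right hJ2 hV10.le
        _ = 4 * V0 ^ 2 := by field_simp
    calc 6 * (C * L ^ 2 * Real.sqrt T * K2 * ((2 * T + 8 * (P : ℝ) ^ 2 * (1 + Real.log (4 * (P : ℝ) ^ 2))) * (2 * (P : ℝ) ^ 2))) * 4 ^ J / V0 ^ 2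
        = 6 * (C * L ^ 2 * Real.sqrt T * K2 * ((2 * T + 8 * (P : ℝ) ^ 2 * (1 + Real.log (4 * (P : ℝ) ^ 2))) * (2 * (P : ℝ) ^ 2))) * (4 ^ J / V0 ^ 2) := by ring
      _ ≤ 6 * (C * L ^ 2 * Real.sqrt T * K2 * ((2 * T + 8 * (P : ℝ) ^ 2 * (1 + Real.log (4 * (P : ℝ) ^ 2))) * (2 * (P : ℝ) ^ 2))) * (4 / V1) :=
          mul_le_mul_of_nonneg_left h2 (by linarith)
      _ = _ := by ring
  have s3 : V0 ^ 2 / 4 ^ J * ((2 * T + 2 * K2 * (1 + Real.log K2)) * K2) ≤ V1 * ((2 * T + 4 * K2 * L) * K2) := by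
    have h1 : V0 ^ 2 / 4 ^ J ≤ V1 := by
      rw [div_le_iff₀ (by positivity)]
      have h2 := mul_le_mul_of_nonneg_right hJ1 hV10.le
      rw [div_mul_cancel₀ _ hV10.ne'] at h2
      linarith
    have h2 : Real.log K2 ≤ L := by
      rcases Nat.eq_zero_or_pos K2 with h | h
      · rw [h, Nat.cast_zero, Real.log_zero]
        exact hL0.le
      · exact Real.log_le_log (by exact_mod_cast h) (by exact_mod_cast hK2X)
    have h3 : 0 ≤ Real.log K2 := Real.log_natCast_nonneg K2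
    apply mul_le_mul h1 _ (by positivity) hV10.le
    apply mul_le_mul_of_nonneg_right _ hK0
    nlinarith
  have hsum : X ^ 2 / (3 * L ^ A) + X ^ 2 / (3 * L ^ A) + X ^ 2 / (3 * L ^ A) = (X : ℝ) ^ 2 / L ^ A := by
    field_simp
    norm_num
  rw [← hsum]
  exact add_le_add (add_le_add ht1 (s1.trans ht2)) (s3.trans ht3)

end Pool.Agent.H31.EQ
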