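import Pool.Agent.H31.EQ.Defs
import Pool.Agent.H53.MID.Fac
import Pool.Agent.H53.MID.Mvt

/-!
# EQ Vol: the large values of the prime polynomial, by the mean value theorem for its square

`Pl P d l t = ∑_{p ∈ pb P, p ≡ l (d)} ee(-t log p)`; `Pl^2 = ∑_{m ≤ 4P²} c(m) ee(-t log m)`, `c(m) = #{(p, q) : p q = m} ≤ 2`,
`∑ c(m)² ≤ 2 ∑ c(m) ≤ 2 P²`.  `Pool.Agent.H53.MID.mvt` (`τ = 0`, `X = 4 P²`): `∫_{|t| ≤ T} |Pl|^4 ≤ (2T + 8P²(1 + log(4P²))) 2P²`; Chebyshev: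
`V^4 vol(B) ≤ ∫_B |Pl|^4`.
-/

set_option autoImplicit false

namespace Pool.Agent.H31.EQ

open Finset MeasureTheory
open Pool.Agent.H91.PK (ee)
open Pool.Agent.H35.W (pb)
open Pool.Agent.H53.MID (Fp Pl Kl)

private theorem Vol_ee_add (a b : ℝ) : ee (a + b) = ee a * ee b := by
  unfold ee
  rw [← Complex.exp_add]
  congr 1
  push_cast
  ring

private theorem Vol_ee_cont : Continuous ee := by
  unfold ee
  fun_prop

private noncomputable def Vol_S (P d l : ℕ) : Finset ℕ := (pb P).filter (fun p => p % d = l % d)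

private noncomputable def Vol_c (P d l m : ℕ) : ℂ :=
  ((((Vol_S P d l) ×ˢ (Vol_S P d l)).filter (fun x => x.1 * x.2 = m)).card : ℂ)

private theorem Vol_mem (P d l p : ℕ) (hp : p ∈ Vol_S P d l) : p.Prime ∧ P < p ∧ p ≤ 2 * P := by
  simp only [Vol_S, pb, mem_filter, mem_Ioc] at hp
  exact ⟨hp.1.2, hp.1.1.1, hp.1.1.2⟩

private theorem Vol_maps (P d l : ℕ) : ∀ x ∈ (Vol_S P d l) ×ˢ (Vol_S P d l), x.1 * x.2 ∈ Icc 1 (4 * P ^ 2) := by
  intro x hx
  rw [mem_product] at hx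
  have h1 := Vol_mem P d l x.1 hx.1
  have h2 := Vol_mem P d l x.2 hx.2
  rw [mem_Icc]
  constructor
  · exact Nat.mul_pos h1.1.pos h2.1.pos
  · have h3 : x.1 * x.2 ≤ (2 * P) * (2 * P) := Nat.mul_le_mul h1.2.2 h2.2.2
    have h4 : (2 * P) * (2 * P) = 4 * P ^ 2 := by ring
    omega

private theorem Vol_sq (P d l : ℕ) (t : ℝ) :
    Pl P d l t ^ 2 = ∑ m ∈ Icc 1 (4 * P ^ 2), Vol_c P d l m * ee (-((0 + t) * Real.log m)) := by
  have h1 : Pl P d l t ^ 2 = ∑ x ∈ (Vol_S P d l) ×ˢ (Vol_S P d l), ee (-(t * Real.log (x.1 * x.2 : ℕ))) := by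
    rw [sq]
    unfold Pl
    rw [Finset.sum_mul_sum, ← Finset.sum_product']
    refine Finset.sum_congr rfl (fun x hx => ?_)
    have hx' : x ∈ (Vol_S P d l) ×ˢ (Vol_S P d l) := hx
    rw [mem_product] at hx'
    have h1 := (Vol_mem P d l x.1 hx'.1).1.pos
    have h2 := (Vol_mem P d l x.2 hx'.2).1.pos
    rw [← Vol_ee_add, Nat.cast_mul, Real.log_mul (by exact_mod_cast h1.ne') (by exact_mod_cast h2.ne')]
    congr 1
    ring
  rw [h1, ← Finset.sum_fiberwise_of_maps_to (Vol_maps P d l)]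
  refine Finset.sum_congr rfl (fun m _ => ?_)
  rw [Vol_c]
  have h2 : ∀ x ∈ ((Vol_S P d l) ×ˢ (Vol_S P d l)).filter (fun x => x.1 * x.2 = m),
      ee (-(t * Real.log (x.1 * x.2 : ℕ))) = ee (-((0 + t) * Real.log m)) := by
    intro x hx
    rw [mem_filter] at hx
    rw [hx.2, zero_add]
  rw [Finset.sum_congr rfl h2, Finset.sum_const, nsmul_eq_mul]

private theorem Vol_c_le (P d l m : ℕ) :
    (((Vol_S P d l) ×ˢ (Vol_S P d l)).filter (fun x => x.1 * x.2 = m)).card ≤ 2 := by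
  by_cases hne : (((Vol_S P d l) ×ˢ (Vol_S P d l)).filter (fun x => x.1 * x.2 = m)).Nonempty
  · obtain ⟨y, hy⟩ := hne
    rw [mem_filter, mem_product] at hy
    have h1 := (Vol_mem P d l y.1 hy.1.1).1
    have h2 := (Vol_mem P d l y.2 hy.1.2).1
    have hsub : ((Vol_S P d l) ×ˢ (Vol_S P d l)).filter (fun x => x.1 * x.2 = m) ⊆
        {(y.1, y.2), (y.2, y.1)} := by
      intro x hx
      rw [mem_filter, mem_product] at hx
      have h3 := (Vol_mem P d l x.1 hx.1.1).1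
      have h4 := (Vol_mem P d l x.2 hx.1.2).1
      have h5 : x.1 * x.2 = y.1 * y.2 := hx.2.trans hy.2.symm
      have h6 : x.1 ∣ y.1 * y.2 := Dvd.intro _ h5
      rw [mem_insert, mem_singleton]
      rcases (Nat.Prime.dvd_mul h3).mp h6 with h7 | h7
      · have h8 : x.1 = y.1 := (Nat.prime_dvd_prime_iff_eq h3 h1).mp h7
        left
        have h9 : x.2 = y.2 := by
          rw [h8] at h5
          exact Nat.eq_of_mul_eq_mul_left h1.pos h5
        exact Prod.ext h8 h9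
      · have h8 : x.1 = y.2 := (Nat.prime_dvd_prime_iff_eq h3 h2).mp h7
        right
        have h9 : x.2 = y.1 := by
          rw [h8, mul_comm y.1 y.2] at h5
          exact Nat.eq_of_mul_eq_mul_left h2.pos h5
        exact Prod.ext h8 h9
    exact (Finset.card_le_card hsub).trans Finset.card_le_two
  · rw [Finset.not_nonempty_iff_eq_empty] at hne
    rw [hne, Finset.card_empty]
    norm_num

private theorem Vol_csum (P d l : ℕ) : ∑ m ∈ Icc 1 (4 * P ^ 2), ‖Vol_c P d l m‖ ^ 2 ≤ 2 * (P : ℝ) ^ 2 := by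
  have h1 : ∀ m ∈ Icc 1 (4 * P ^ 2), ‖Vol_c P d l m‖ ^ 2 ≤
      2 * ((((Vol_S P d l) ×ˢ (Vol_S P d l)).filter (fun x => x.1 * x.2 = m)).card : ℝ) := by
    intro m _
    rw [Vol_c, Complex.norm_natCast, sq]
    have h2 : ((((Vol_S P d l) ×ˢ (Vol_S P d l)).filter (fun x => x.1 * x.2 = m)).card : ℝ) ≤ 2 := by
      exact_mod_cast Vol_c_le P d l m
    exact mul_le_mul_of_nonneg_right h2 (Nat.cast_nonneg _)
  refine (Finset.sum_le_sum h1).trans ?_
  rw [← Finset.mul_sum]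
  have h2 : ∑ m ∈ Icc 1 (4 * P ^ 2),
      ((((Vol_S P d l) ×ˢ (Vol_S P d l)).filter (fun x => x.1 * x.2 = m)).card : ℝ) =
      ((((Vol_S P d l) ×ˢ (Vol_S P d l))).card : ℝ) := by
    rw [Finset.card_eq_sum_card_fiberwise (Vol_maps P d l)]
    push_cast
    rfl
  rw [h2, Finset.card_product]
  have h3 : (Vol_S P d l).card ≤ P := by
    have h4 : Vol_S P d l ⊆ Ioc P (2 * P) := by
      intro p hp
      have h5 := Vol_mem P d l p hp
      rw [mem_Ioc]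
      exact h5.2
    refine (Finset.card_le_card h4).trans ?_
    rw [Nat.card_Ioc]
    omega
  have h5 : (((Vol_S P d l).card * (Vol_S P d l).card : ℕ) : ℝ) ≤ (P : ℝ) ^ 2 := by
    have h6 : (Vol_S P d l).card * (Vol_S P d l).card ≤ P * P := Nat.mul_le_mul h3 h3
    rw [sq]
    exact_mod_cast h6
  linarith

private theorem Vol_cont (P d l : ℕ) : Continuous (fun t => ‖Pl P d l t‖ ^ 4) := by
  have h1 : Continuous (fun t => Pl P d l t) := by
    unfold Pl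
    refine continuous_finsetSum _ (fun p _ => ?_)
    exact Vol_ee_cont.comp (by fun_prop)
  exact h1.norm.pow 4

theorem vol_le (P d l : ℕ) (V T : ℝ) (hP : 1 ≤ P) (hV : 0 < V) (hT : 0 ≤ T) (B : Set ℝ) (hB : MeasurableSet B)
    (hBT : B ⊆ Set.Icc (-T) T) (hBV : ∀ t ∈ B, V ≤ ‖Pl P d l t‖) :
    volume.real B ≤ (2 * T + 8 * (P : ℝ) ^ 2 * (1 + Real.log (4 * (P : ℝ) ^ 2))) * (2 * (P : ℝ) ^ 2) / V ^ 4 := by
  have hX : 1 ≤ 4 * P ^ 2 := by
    have : 1 ≤ P ^ 2 := Nat.one_le_pow _ _ hP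
    omega
  have hmv := Pool.Agent.H53.MID.mvt (Vol_c P d l) (4 * P ^ 2) T 0 hX hT
  have hI : ∫ t in Set.Icc (-T) T, ‖Pl P d l t‖ ^ 4 =
      ∫ t in Set.Icc (-T) T, ‖∑ m ∈ Icc 1 (4 * P ^ 2), Vol_c P d l m * ee (-((0 + t) * Real.log m))‖ ^ 2 := by
    refine integral_congr_ae (Filter.Eventually.of_forall (fun t => ?_))
    show ‖Pl P d l t‖ ^ 4 = ‖∑ m ∈ Icc 1 (4 * P ^ 2), Vol_c P d l m * ee (-((0 + t) * Real.log m))‖ ^ 2
    rw [← Vol_sq P d l t, norm_pow]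
    ring
  have hint : IntegrableOn (fun t => ‖Pl P d l t‖ ^ 4) (Set.Icc (-T) T) :=
    (Vol_cont P d l).integrableOn_Icc
  have hBfin : volume B ≠ ⊤ := by
    refine ne_top_of_le_ne_top ?_ (measure_mono hBT)
    exact (isCompact_Icc.measure_lt_top).ne
  have h1 : volume.real B * V ^ 4 ≤ ∫ t in B, ‖Pl P d l t‖ ^ 4 := by
    have h2 : ∫ _t in B, V ^ 4 = volume.real B * V ^ 4 := by
      rw [setIntegral_const, smul_eq_mul]
    rw [← h2]
    refine setIntegral_mono_on ?_ (hint.mono_set hBT) hB (fun t ht => ?_)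
    · exact integrableOn_const hBfin
    · exact pow_le_pow_left₀ hV.le (hBV t ht) 4
  have h3 : ∫ t in B, ‖Pl P d l t‖ ^ 4 ≤ ∫ t in Set.Icc (-T) T, ‖Pl P d l t‖ ^ 4 := by
    refine setIntegral_mono_set hint ?_ (Filter.Eventually.of_forall hBT)
    exact Filter.Eventually.of_forall (fun t => by positivity)
  have hlog : 0 ≤ Real.log (4 * (P : ℝ) ^ 2) := by
    apply Real.log_nonneg
    have : (1 : ℝ) ≤ P := by exact_mod_cast hP
    nlinarith
  have h4 : (2 * T + 2 * ((4 * P ^ 2 : ℕ) : ℝ) * (1 + Real.log ((4 * P ^ 2 : ℕ) : ℝ))) *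
      ∑ m ∈ Icc 1 (4 * P ^ 2), ‖Vol_c P d l m‖ ^ 2 ≤
      (2 * T + 8 * (P : ℝ) ^ 2 * (1 + Real.log (4 * (P : ℝ) ^ 2))) * (2 * (P : ℝ) ^ 2) := by
    have h5 : (2 * T + 2 * ((4 * P ^ 2 : ℕ) : ℝ) * (1 + Real.log ((4 * P ^ 2 : ℕ) : ℝ))) =
        (2 * T + 8 * (P : ℝ) ^ 2 * (1 + Real.log (4 * (P : ℝ) ^ 2))) := by
      push_cast
      ring
    rw [h5]
    exact mul_le_mul_of_nonneg_left (Vol_csum P d l) (by positivity)
  rw [le_div_iff₀ (by positivity)]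
  rw [← hI] at hmv
  linarith

end Pool.Agent.H31.EQ
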